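import Pool.Agent.Helper81.RC.QN2

/-! Generated integer data for a quadratic system (centre of period 3). -/

set_option autoImplicit false

namespace Pool.Agent.Helper81.RC.C3

def EL : List (QEq 17) := [
  ⟨0, 0, [], [(0, 10, 1), (1, 11, 1), (12, 6, (-1))]⟩,
  ⟨0, 0, [], [(1, 10, 1), (0, 11, (-1)), (12, 7, (-1))]⟩,
  ⟨0, 0, [], [(2, 6, 1), (3, 7, (-1)), (13, 8, (-1))]⟩,
  ⟨0, 0, [], [(2, 7, 1), (3, 6, 1), (13, 9, (-1))]⟩,
  ⟨0, 0, [], [(4, 8, 1), (5, 9, (-1)), (14, 10, (-1))]⟩,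
  ⟨0, 0, [], [(4, 9, 1), (5, 8, 1), (14, 11, (-1))]⟩,
  ⟨0, 1, [(2, (-1))], [(0, 0, 1), (1, 1, (-1)), (15, 6, 1)]⟩,
  ⟨0, 0, [(3, (-1))], [(0, 1, 2), (15, 7, 1)]⟩,
  ⟨0, 1, [(4, (-1))], [(2, 2, 1), (3, 3, (-1)), (15, 8, 1)]⟩,
  ⟨0, 0, [(5, (-1))], [(2, 3, 2), (15, 9, 1)]⟩,
  ⟨0, 1, [(0, (-1))], [(4, 4, 1), (5, 5, (-1)), (15, 10, 1)]⟩,
  ⟨0, 0, [(1, 1)], [(4, 5, 2), (15, 11, 1)]⟩,
  ⟨(-1), 0, [], [(6, 6, 1), (7, 7, 1)]⟩,
  ⟨(-1), 0, [], [(8, 8, 1), (9, 9, 1)]⟩,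
  ⟨(-1), 0, [], [(10, 10, 1), (11, 11, 1)]⟩,
  ⟨0, 0, [(16, (-1))], [(14, 13, 1)]⟩,
  ⟨(-1), 0, [], [(12, 16, 8)]⟩]

def E (k : Fin 17) : QEq 17 := EL.getD k.val ⟨0, 0, [], []⟩

def XL : List ℤ := [26564565684857835, -46207465563238305, -1757351577659240823, -4229588495614850, 1334429195347473427, 16642882669135248, -507222173279617025, -861815332268753595, 505146495656183721, 863033613439405476, 494344371124306624, 869266151841720914, 53299212224975523, 1757356667532309722, 1334532975590803451, 2059171983831148, 2345250422696231586]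

def X (k : Fin 17) : ℤ := XL.getD k.val 0

def YL : List (List ℤ) := [
  [-1662, -4723, 86, 122, 125, 155, 30795, -18169, -8817, 5152, -3401, 1899, 0, 0, 0, 112, 262],
  [4854, 7125, -125, -229, -153, -308, 18417, -10733, -5173, 3044, -1824, 1127, 0, 0, 0, -196, -459],
  [234, 485, -11, -12, -13, -17, -4211, 828, -1642, -240, -606, -98, -1, 1, 0, -12, -29],
  [486, 769, -12, -25, -17, -32, 921, -3342, -250, -1894, -71, -710, -2, 2, 1, -21, -48],
  [-694, -1775, 35, 46, 50, 58, 12363, -5714, -3538, 1619, 2385, 642, 1, 0, -2, 43, 100],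
  [-1782, -2663, 45, 86, 55, 116, -5995, 6185, 1682, -1757, 544, 3091, 2, 1, -3, 73, 171],
  [-61075, 37655, -2034, 1139, -2567, 1392, 292267, -173433, -83258, 48482, -31368, 16681, -2537, 0, 1, -33, -78],
  [35946, -22162, 1197, -670, 1511, -819, -172014, 102074, 49002, -28534, 18462, -9818, -4308, 0, -1, 20, 46],
  [61400, -37331, -2208, 1328, 2563, -1410, -292223, 172036, 83255, -49480, 31379, -17053, 0, 2526, -1, 23, 55],
  [-35938, 21850, 1292, -778, -1500, 825, 171043, -100695, -48730, 28962, -18366, 9981, 0, 4315, 0, -14, -32],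
  [62998, -35880, -2253, 1283, -3117, 1725, -290328, 169204, 82732, -48680, 31270, -19184, -1, 0, 2473, -23, -55],
  [-35827, 20405, 1281, -729, 1772, -981, 165107, -96225, -47049, 27684, -17783, 10910, 1, 0, 4346, 13, 31],
  [36, 87, 151, 260, 195, 344, -618, 250, 91, -71, -114, -30, -267, 0, 267, 225, 528],
  [-236, -487, -5040, -8618, 13, 17, 4208, -820, 1643, 245, 606, 100, 8788, -8788, 0, 12, 29],
  [-716, -1808, 35, 47, -4893, -8633, 12288, -5636, -3516, 1597, 2392, 680, 1, 6673, -6674, 44, 102],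
  [0, 0, 0, 0, 0, 0, -3646, -6195, 1033, 1765, 379, 666, -7, -2, -1, 0, 0],
  [-1572, -3828, -6665, -11418, -8581, -15148, 27210, -10999, -3988, 3133, 5012, 1329, 11731, -1, -11730, -9907, 218]]

def Y (i k : Fin 17) : ℤ := (YL.getD i.val []).getD k.val 0

def S : ℤ := 1000000000000000000
def T : ℤ := 10000
def R : ℤ := 1000000
def C : ℤ := -1754877666246692760

def a : ℕ := 20860395829585650513
def b : ℕ := 2260515
def e : ℕ := 420406117044555948570818

set_option maxRecDepth 100000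
theorem hA : ∀ i, ∑ j, ((if i = j then S * T else 0) - ∑ k, Y i k * (E k).jac S X j).natAbs ≤ a := by
  decide +kernel

theorem hB : ∀ i, ∑ k, (Y i k).natAbs * (E k).wt ≤ b := by
  decide +kernel

theorem hC : ∀ i, (∑ k, Y i k * (E k).res S X C).natAbs
      + S.natAbs * ∑ k, (Y i k).natAbs * (E k).cf.natAbs ≤ e := by
  decide +kernel

theorem exists_sol (c : ℝ) (hc : |c - C / S| ≤ 1 / S) :
    ∃ x : Fin 17 → ℝ, (∀ j, |x j - (X j : ℝ) / S| ≤ (R : ℝ) / S) ∧ (∀ k, (E k).eval c x = 0) ∧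
      ∀ y : Fin 17 → ℝ, (∀ j, |y j - (X j : ℝ) / S| ≤ (R : ℝ) / S) →
        (∀ k, (E k).eval c y = 0) → y = x :=
  newton E S T R (by decide) (by decide) (by decide) X Y C c hc a b e hA hB hC (by decide) (by decide)

end Pool.Agent.Helper81.RC.C3
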