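import Pool.Agent.Helper81.RC.Gen3
import Pool.Agent.Helper81.RC.C3Data

/-! The real period three centre: extremal cycle and numerical conditions. -/

set_option autoImplicit false

namespace Pool.Agent.Helper81.RC.C3

open Complex

/-- cycle points from the solution vector -/
noncomputable def Zf (x : Fin 17 → ℝ) : ℕ → ℂ
  | 0 => ⟨x 0, x 1⟩
  | 1 => ⟨x 2, x 3⟩
  | 2 => ⟨x 4, x 5⟩
  | _ => ⟨x 0, -x 1⟩

/-- normals from the solution vector -/
noncomputable def Nf (x : Fin 17 → ℝ) : ℕ → ℂ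
  | 0 => ⟨x 10, -x 11⟩
  | 1 => ⟨x 6, x 7⟩
  | 2 => ⟨x 8, x 9⟩
  | _ => ⟨x 10, x 11⟩

/-- moduli from the solution vector -/
noncomputable def mf (x : Fin 17 → ℝ) : ℕ → ℝ
  | 0 => x 12
  | 1 => x 13
  | _ => x 14

theorem eq0 {c : ℝ} {x : Fin 17 → ℝ} (hx : ∀ k, (E k).eval c x = 0) :
    (1) * (x 0 * x 10) + (1) * (x 1 * x 11) + (-1) * (x 12 * x 6) = 0 := by
  have h := hx 0
  simp [E, EL, QEq.eval] at h
  linarith

theorem eq1 {c : ℝ} {x : Fin 17 → ℝ} (hx : ∀ k, (E k).eval c x = 0) :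
    (1) * (x 1 * x 10) + (-1) * (x 0 * x 11) + (-1) * (x 12 * x 7) = 0 := by
  have h := hx 1
  simp [E, EL, QEq.eval] at h
  linarith

theorem eq2 {c : ℝ} {x : Fin 17 → ℝ} (hx : ∀ k, (E k).eval c x = 0) :
    (1) * (x 2 * x 6) + (-1) * (x 3 * x 7) + (-1) * (x 13 * x 8) = 0 := by
  have h := hx 2
  simp [E, EL, QEq.eval] at h
  linarith

theorem eq3 {c : ℝ} {x : Fin 17 → ℝ} (hx : ∀ k, (E k).eval c x = 0) :
    (1) * (x 2 * x 7) + (1) * (x 3 * x 6) + (-1) * (x 13 * x 9) = 0 := by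
  have h := hx 3
  simp [E, EL, QEq.eval] at h
  linarith

theorem eq4 {c : ℝ} {x : Fin 17 → ℝ} (hx : ∀ k, (E k).eval c x = 0) :
    (1) * (x 4 * x 8) + (-1) * (x 5 * x 9) + (-1) * (x 14 * x 10) = 0 := by
  have h := hx 4
  simp [E, EL, QEq.eval] at h
  linarith

theorem eq5 {c : ℝ} {x : Fin 17 → ℝ} (hx : ∀ k, (E k).eval c x = 0) :
    (1) * (x 4 * x 9) + (1) * (x 5 * x 8) + (-1) * (x 14 * x 11) = 0 := by
  have h := hx 5
  simp [E, EL, QEq.eval] at h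
  linarith

theorem eq6 {c : ℝ} {x : Fin 17 → ℝ} (hx : ∀ k, (E k).eval c x = 0) :
    c + (-1) * x 2 + (1) * (x 0 * x 0) + (-1) * (x 1 * x 1) + (1) * (x 15 * x 6) = 0 := by
  have h := hx 6
  simp [E, EL, QEq.eval] at h
  linarith

theorem eq7 {c : ℝ} {x : Fin 17 → ℝ} (hx : ∀ k, (E k).eval c x = 0) :
    (-1) * x 3 + (2) * (x 0 * x 1) + (1) * (x 15 * x 7) = 0 := by
  have h := hx 7
  simp [E, EL, QEq.eval] at h
  linarith

theorem eq8 {c : ℝ} {x : Fin 17 → ℝ} (hx : ∀ k, (E k).eval c x = 0) :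
    c + (-1) * x 4 + (1) * (x 2 * x 2) + (-1) * (x 3 * x 3) + (1) * (x 15 * x 8) = 0 := by
  have h := hx 8
  simp [E, EL, QEq.eval] at h
  linarith

theorem eq9 {c : ℝ} {x : Fin 17 → ℝ} (hx : ∀ k, (E k).eval c x = 0) :
    (-1) * x 5 + (2) * (x 2 * x 3) + (1) * (x 15 * x 9) = 0 := by
  have h := hx 9
  simp [E, EL, QEq.eval] at h
  linarith

theorem eq10 {c : ℝ} {x : Fin 17 → ℝ} (hx : ∀ k, (E k).eval c x = 0) :
    c + (-1) * x 0 + (1) * (x 4 * x 4) + (-1) * (x 5 * x 5) + (1) * (x 15 * x 10) = 0 := by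
  have h := hx 10
  simp [E, EL, QEq.eval] at h
  linarith

theorem eq11 {c : ℝ} {x : Fin 17 → ℝ} (hx : ∀ k, (E k).eval c x = 0) :
    (1) * x 1 + (2) * (x 4 * x 5) + (1) * (x 15 * x 11) = 0 := by
  have h := hx 11
  simp [E, EL, QEq.eval] at h
  linarith

theorem eq12 {c : ℝ} {x : Fin 17 → ℝ} (hx : ∀ k, (E k).eval c x = 0) :
    (-1) + (1) * (x 6 * x 6) + (1) * (x 7 * x 7) = 0 := by
  have h := hx 12
  simp [E, EL, QEq.eval] at h
  linarith

theorem eq13 {c : ℝ} {x : Fin 17 → ℝ} (hx : ∀ k, (E k).eval c x = 0) :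
    (-1) + (1) * (x 8 * x 8) + (1) * (x 9 * x 9) = 0 := by
  have h := hx 13
  simp [E, EL, QEq.eval] at h
  linarith

theorem eq14 {c : ℝ} {x : Fin 17 → ℝ} (hx : ∀ k, (E k).eval c x = 0) :
    (-1) + (1) * (x 10 * x 10) + (1) * (x 11 * x 11) = 0 := by
  have h := hx 14
  simp [E, EL, QEq.eval] at h
  linarith

theorem eq15 {c : ℝ} {x : Fin 17 → ℝ} (hx : ∀ k, (E k).eval c x = 0) :
    (-1) * x 16 + (1) * (x 14 * x 13) = 0 := by
  have h := hx 15
  simp [E, EL, QEq.eval] at h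
  linarith

theorem eq16 {c : ℝ} {x : Fin 17 → ℝ} (hx : ∀ k, (E k).eval c x = 0) :
    (-1) + (8) * (x 12 * x 16) = 0 := by
  have h := hx 16
  simp [E, EL, QEq.eval] at h
  linarith

theorem enc0 {x : Fin 17 → ℝ} (hb : ∀ j, |x j - (C3.X j : ℝ) / S| ≤ (R : ℝ) / S) :
    |x 0 - (265645657) / 10^10| ≤ 1 / 10^10 := by
  have h := hb 0
  norm_num [X, XL, S, R] at h
  rw [abs_le] at h ⊢
  constructor <;> linarith [h.1, h.2]

theorem enc1 {x : Fin 17 → ℝ} (hb : ∀ j, |x j - (C3.X j : ℝ) / S| ≤ (R : ℝ) / S) :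
    |x 1 - (-462074656) / 10^10| ≤ 1 / 10^10 := by
  have h := hb 1
  norm_num [X, XL, S, R] at h
  rw [abs_le] at h ⊢
  constructor <;> linarith [h.1, h.2]

theorem enc2 {x : Fin 17 → ℝ} (hb : ∀ j, |x j - (C3.X j : ℝ) / S| ≤ (R : ℝ) / S) :
    |x 2 - (-17573515777) / 10^10| ≤ 1 / 10^10 := by
  have h := hb 2
  norm_num [X, XL, S, R] at h
  rw [abs_le] at h ⊢
  constructor <;> linarith [h.1, h.2]

theorem enc3 {x : Fin 17 → ℝ} (hb : ∀ j, |x j - (C3.X j : ℝ) / S| ≤ (R : ℝ) / S) :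
    |x 3 - (-42295885) / 10^10| ≤ 1 / 10^10 := by
  have h := hb 3
  norm_num [X, XL, S, R] at h
  rw [abs_le] at h ⊢
  constructor <;> linarith [h.1, h.2]

theorem enc4 {x : Fin 17 → ℝ} (hb : ∀ j, |x j - (C3.X j : ℝ) / S| ≤ (R : ℝ) / S) :
    |x 4 - (13344291953) / 10^10| ≤ 1 / 10^10 := by
  have h := hb 4
  norm_num [X, XL, S, R] at h
  rw [abs_le] at h ⊢
  constructor <;> linarith [h.1, h.2]

theorem enc5 {x : Fin 17 → ℝ} (hb : ∀ j, |x j - (C3.X j : ℝ) / S| ≤ (R : ℝ) / S) :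
    |x 5 - (166428827) / 10^10| ≤ 1 / 10^10 := by
  have h := hb 5
  norm_num [X, XL, S, R] at h
  rw [abs_le] at h ⊢
  constructor <;> linarith [h.1, h.2]

theorem enc6 {x : Fin 17 → ℝ} (hb : ∀ j, |x j - (C3.X j : ℝ) / S| ≤ (R : ℝ) / S) :
    |x 6 - (-5072221733) / 10^10| ≤ 1 / 10^10 := by
  have h := hb 6
  norm_num [X, XL, S, R] at h
  rw [abs_le] at h ⊢
  constructor <;> linarith [h.1, h.2]

theorem enc7 {x : Fin 17 → ℝ} (hb : ∀ j, |x j - (C3.X j : ℝ) / S| ≤ (R : ℝ) / S) :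
    |x 7 - (-8618153323) / 10^10| ≤ 1 / 10^10 := by
  have h := hb 7
  norm_num [X, XL, S, R] at h
  rw [abs_le] at h ⊢
  constructor <;> linarith [h.1, h.2]

theorem enc8 {x : Fin 17 → ℝ} (hb : ∀ j, |x j - (C3.X j : ℝ) / S| ≤ (R : ℝ) / S) :
    |x 8 - (5051464957) / 10^10| ≤ 1 / 10^10 := by
  have h := hb 8
  norm_num [X, XL, S, R] at h
  rw [abs_le] at h ⊢
  constructor <;> linarith [h.1, h.2]

theorem enc9 {x : Fin 17 → ℝ} (hb : ∀ j, |x j - (C3.X j : ℝ) / S| ≤ (R : ℝ) / S) :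
    |x 9 - (8630336134) / 10^10| ≤ 1 / 10^10 := by
  have h := hb 9
  norm_num [X, XL, S, R] at h
  rw [abs_le] at h ⊢
  constructor <;> linarith [h.1, h.2]

theorem enc10 {x : Fin 17 → ℝ} (hb : ∀ j, |x j - (C3.X j : ℝ) / S| ≤ (R : ℝ) / S) :
    |x 10 - (4943443711) / 10^10| ≤ 1 / 10^10 := by
  have h := hb 10
  norm_num [X, XL, S, R] at h
  rw [abs_le] at h ⊢
  constructor <;> linarith [h.1, h.2]

theorem enc11 {x : Fin 17 → ℝ} (hb : ∀ j, |x j - (C3.X j : ℝ) / S| ≤ (R : ℝ) / S) :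
    |x 11 - (8692661518) / 10^10| ≤ 1 / 10^10 := by
  have h := hb 11
  norm_num [X, XL, S, R] at h
  rw [abs_le] at h ⊢
  constructor <;> linarith [h.1, h.2]

theorem enc12 {x : Fin 17 → ℝ} (hb : ∀ j, |x j - (C3.X j : ℝ) / S| ≤ (R : ℝ) / S) :
    |x 12 - (532992122) / 10^10| ≤ 1 / 10^10 := by
  have h := hb 12
  norm_num [X, XL, S, R] at h
  rw [abs_le] at h ⊢
  constructor <;> linarith [h.1, h.2]

theorem enc13 {x : Fin 17 → ℝ} (hb : ∀ j, |x j - (C3.X j : ℝ) / S| ≤ (R : ℝ) / S) :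
    |x 13 - (17573566675) / 10^10| ≤ 1 / 10^10 := by
  have h := hb 13
  norm_num [X, XL, S, R] at h
  rw [abs_le] at h ⊢
  constructor <;> linarith [h.1, h.2]

theorem enc14 {x : Fin 17 → ℝ} (hb : ∀ j, |x j - (C3.X j : ℝ) / S| ≤ (R : ℝ) / S) :
    |x 14 - (13345329756) / 10^10| ≤ 1 / 10^10 := by
  have h := hb 14
  norm_num [X, XL, S, R] at h
  rw [abs_le] at h ⊢
  constructor <;> linarith [h.1, h.2]

theorem enc15 {x : Fin 17 → ℝ} (hb : ∀ j, |x j - (C3.X j : ℝ) / S| ≤ (R : ℝ) / S) :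
    |x 15 - (20591720) / 10^10| ≤ 1 / 10^10 := by
  have h := hb 15
  norm_num [X, XL, S, R] at h
  rw [abs_le] at h ⊢
  constructor <;> linarith [h.1, h.2]

theorem enc16 {x : Fin 17 → ℝ} (hb : ∀ j, |x j - (C3.X j : ℝ) / S| ≤ (R : ℝ) / S) :
    |x 16 - (23452504227) / 10^10| ≤ 1 / 10^10 := by
  have h := hb 16
  norm_num [X, XL, S, R] at h
  rw [abs_le] at h ⊢
  constructor <;> linarith [h.1, h.2]


theorem norm_one {a b : ℝ} (h : a * a + b * b = 1) : ‖(⟨a, b⟩ : ℂ)‖ = 1 := by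
  have h1 := Complex.sq_norm (⟨a, b⟩ : ℂ)
  rw [Complex.normSq_apply] at h1
  simp only at h1
  rw [h] at h1
  have h2 := norm_nonneg (⟨a, b⟩ : ℂ)
  nlinarith

theorem ext_of {c : ℝ} {x : Fin 17 → ℝ} (hx : ∀ k, (E k).eval c x = 0)
    (hb : ∀ j, |x j - (C3.X j : ℝ) / S| ≤ (R : ℝ) / S) :
    Ext 3 c (x 15) (Zf x) (Nf x) (mf x) := by
  have e0 := eq0 hx
  have e1 := eq1 hx
  have e2 := eq2 hx
  have e3 := eq3 hx
  have e4 := eq4 hx
  have e5 := eq5 hx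
  have e6 := eq6 hx
  have e7 := eq7 hx
  have e8 := eq8 hx
  have e9 := eq9 hx
  have e10 := eq10 hx
  have e11 := eq11 hx
  have e12 := eq12 hx
  have e13 := eq13 hx
  have e14 := eq14 hx
  have e15 := eq15 hx
  have e16 := eq16 hx
  have n12 := enc12 hb
  have n13 := enc13 hb
  have n14 := enc14 hb
  rw [abs_le] at n12 n13 n14
  refine ⟨?_, ?_, ?_, ?_, ?_, ?_, ?_⟩
  · intro j hj
    interval_cases j
    · exact norm_one (by linarith)
    · exact norm_one (by linarith)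
    · exact norm_one (by linarith)
    · exact norm_one (by linarith)
  · intro j hj
    interval_cases j
    · show 0 < x 12
      linarith [n12.1]
    · show 0 < x 13
      linarith [n13.1]
    · show 0 < x 14
      linarith [n14.1]
  · intro j hj
    interval_cases j
    · apply Complex.ext
      · simp [Zf, Nf, mf]; linarith
      · simp [Zf, Nf, mf]; linarith
    · apply Complex.ext
      · simp [Zf, Nf, mf]; linarith
      · simp [Zf, Nf, mf]; linarith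
    · apply Complex.ext
      · simp [Zf, Nf, mf]; linarith
      · simp [Zf, Nf, mf]; linarith
  · intro j hj
    interval_cases j
    · apply Complex.ext
      · simp [Zf, Nf, pow_two]; linarith
      · simp [Zf, Nf, pow_two]; linarith
    · apply Complex.ext
      · simp [Zf, Nf, pow_two]; linarith
      · simp [Zf, Nf, pow_two]; linarith
    · apply Complex.ext
      · simp [Zf, Nf, pow_two]; linarith
      · simp [Zf, Nf, pow_two]; linarith
  · apply Complex.ext <;> simp [Zf]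
  · apply Complex.ext <;> simp [Nf]
  · simp [Finset.prod_range_succ, mf]
    linear_combination e16 + 8 * x 12 * e15

end Pool.Agent.Helper81.RC.C3
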