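import Pool.Agent.Helper81.RC.C3Main

/-! The real period three centre: from complex cycles to solutions of the quadratic system. -/

set_option autoImplicit false

namespace Pool.Agent.Helper81.RC.C3

open Complex

/-- A conjugation symmetric critical cycle of period three of the controlled quadratic map
`z ↦ z² + c + u`, `|u| ≤ r`: points `Z₀, Z₁, Z₂` with unit normals `N₁, N₂, N₃` such that
`Z₁ = Z₀² + c + r N₁`, `Z₂ = Z₁² + c + r N₂`, `conj Z₀ = Z₂² + c + r N₃`, each normal is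
transported by the derivative (`N₁` is the direction of `Z₀ · conj N₃`, `N₂` that of `Z₁ N₁`,
`N₃` that of `Z₂ N₂`), and the multiplier of the cycle is one: `8 |Z₀| |Z₁| |Z₂| = 1`. -/
def CriticalCycle (c r : ℝ) (Z₀ Z₁ Z₂ N₁ N₂ N₃ : ℂ) : Prop :=
  ‖N₁‖ = 1 ∧ ‖N₂‖ = 1 ∧ ‖N₃‖ = 1 ∧
  Z₁ = Z₀ ^ 2 + c + r * N₁ ∧ Z₂ = Z₁ ^ 2 + c + r * N₂ ∧
  (starRingEnd ℂ) Z₀ = Z₂ ^ 2 + c + r * N₃ ∧
  Z₀ * (starRingEnd ℂ) N₃ = ‖Z₀‖ * N₁ ∧ Z₁ * N₁ = ‖Z₁‖ * N₂ ∧ Z₂ * N₂ = ‖Z₂‖ * N₃ ∧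
  8 * (‖Z₀‖ * ‖Z₁‖ * ‖Z₂‖) = 1

/-- the six complex numbers are within `1/2000` of explicit decimal numbers -/
def Near (Z₀ Z₁ Z₂ N₁ N₂ N₃ : ℂ) : Prop :=
  ‖Z₀ - ⟨0.02656, -0.04621⟩‖ ≤ 1 / 2000 ∧ ‖Z₁ - ⟨-1.75735, -0.00423⟩‖ ≤ 1 / 2000 ∧
  ‖Z₂ - ⟨1.33443, 0.01664⟩‖ ≤ 1 / 2000 ∧ ‖N₁ - ⟨-0.50722, -0.86182⟩‖ ≤ 1 / 2000 ∧
  ‖N₂ - ⟨0.50515, 0.86303⟩‖ ≤ 1 / 2000 ∧ ‖N₃ - ⟨0.49434, 0.86927⟩‖ ≤ 1 / 2000

/-- the vector of unknowns -/
noncomputable def vec (r : ℝ) (Z₀ Z₁ Z₂ N₁ N₂ N₃ : ℂ) : Fin 17 → ℝ :=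
  ![Z₀.re, Z₀.im, Z₁.re, Z₁.im, Z₂.re, Z₂.im, N₁.re, N₁.im, N₂.re, N₂.im, N₃.re, N₃.im,
    ‖Z₀‖, ‖Z₁‖, ‖Z₂‖, r, ‖Z₂‖ * ‖Z₁‖]

theorem norm_sq_one {N : ℂ} (h : ‖N‖ = 1) : N.re * N.re + N.im * N.im = 1 := by
  have h1 := Complex.sq_norm N
  rw [h, Complex.normSq_apply] at h1
  linarith

theorem vec_sol {c r : ℝ} {Z₀ Z₁ Z₂ N₁ N₂ N₃ : ℂ} (h : CriticalCycle c r Z₀ Z₁ Z₂ N₁ N₂ N₃) :
    ∀ k, (E k).eval c (vec r Z₀ Z₁ Z₂ N₁ N₂ N₃) = 0 := by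
  obtain ⟨h1, h2, h3, h4, h5, h6, h7, h8, h9, h10⟩ := h
  have a1 := norm_sq_one h1
  have a2 := norm_sq_one h2
  have a3 := norm_sq_one h3
  have b4 := congrArg Complex.re h4
  have c4 := congrArg Complex.im h4
  have b5 := congrArg Complex.re h5
  have c5 := congrArg Complex.im h5
  have b6 := congrArg Complex.re h6
  have c6 := congrArg Complex.im h6
  have b7 := congrArg Complex.re h7
  have c7 := congrArg Complex.im h7
  have b8 := congrArg Complex.re h8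
  have c8 := congrArg Complex.im h8
  have b9 := congrArg Complex.re h9
  have c9 := congrArg Complex.im h9
  simp [pow_two] at b4 c4 b5 c5 b6 c6 b7 c7 b8 c8 b9 c9
  intro k
  fin_cases k <;> simp [E, EL, QEq.eval, vec] <;> linarith

theorem near_coord {Z : ℂ} {a b : ℝ} (h : ‖Z - ⟨a, b⟩‖ ≤ 1 / 2000) :
    |Z.re - a| ≤ 1 / 2000 ∧ |Z.im - b| ≤ 1 / 2000 :=
  ⟨(Complex.abs_re_le_norm (Z - ⟨a, b⟩)).trans h, (Complex.abs_im_le_norm (Z - ⟨a, b⟩)).trans h⟩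

theorem near_norm {Z : ℂ} {a b m : ℝ} (h : ‖Z - ⟨a, b⟩‖ ≤ 1 / 2000) (hm : 1 / 100 ≤ m)
    (h1 : (m - 1 / 100000) ^ 2 ≤ a ^ 2 + b ^ 2) (h2 : a ^ 2 + b ^ 2 ≤ (m + 1 / 100000) ^ 2) :
    |‖Z‖ - m| ≤ 51 / 100000 := by
  have h3 := abs_norm_sub_norm_le Z (⟨a, b⟩ : ℂ)
  have h4 := Complex.sq_norm (⟨a, b⟩ : ℂ)
  rw [Complex.normSq_apply] at h4
  simp only at h4
  have h5 : ‖(⟨a, b⟩ : ℂ)‖ ≤ m + 1 / 100000 := by
    apply abs_le_of_sq_le_sq' _ (by linarith) |>.2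
    linarith
  have h6 : m - 1 / 100000 ≤ ‖(⟨a, b⟩ : ℂ)‖ := by
    apply abs_le_of_sq_le_sq' _ (norm_nonneg _) |>.2
    linarith
  have h7 := h3.trans h
  rw [abs_le] at h7 ⊢
  constructor <;> linarith [h7.1, h7.2]

def R2 : ℤ := 2000000000000000

theorem vec_near {r : ℝ} {Z₀ Z₁ Z₂ N₁ N₂ N₃ : ℂ} (h : Near Z₀ Z₁ Z₂ N₁ N₂ N₃)
    (hr : |r - 0.00206| ≤ 1 / 1000) (j : Fin 17) :
    |vec r Z₀ Z₁ Z₂ N₁ N₂ N₃ j - (C3.X j : ℝ) / S| ≤ (R2 : ℝ) / S := by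
  obtain ⟨h0, h1, h2, h3, h4, h5⟩ := h
  have k0 := near_norm (m := 0.0533) h0 (by norm_num) (by norm_num) (by norm_num)
  have k1 := near_norm (m := 1.75736) h1 (by norm_num) (by norm_num) (by norm_num)
  have k2 := near_norm (m := 1.33453) h2 (by norm_num) (by norm_num) (by norm_num)
  obtain ⟨a0, b0⟩ := near_coord h0
  obtain ⟨a1, b1⟩ := near_coord h1
  obtain ⟨a2, b2⟩ := near_coord h2
  obtain ⟨a3, b3⟩ := near_coord h3
  obtain ⟨a4, b4⟩ := near_coord h4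
  obtain ⟨a5, b5⟩ := near_coord h5
  have k3 : |‖Z₂‖ * ‖Z₁‖ - 1.33453 * 1.75736| ≤ 51/100000 * (2 + 1.75736) / 1.15 := by
    have e : ‖Z₂‖ * ‖Z₁‖ - 1.33453 * 1.75736
        = (‖Z₂‖ - 1.33453) * ‖Z₁‖ + 1.33453 * (‖Z₁‖ - 1.75736) := by ring
    rw [e]
    refine (abs_add_le _ _).trans ?_
    rw [abs_mul, abs_mul]
    have e1 : |‖Z₁‖| ≤ 1.7579 := by
      rw [abs_le] at k1 ⊢
      constructor <;> linarith [k1.1, k1.2]
    have e2 := mul_le_mul k2 e1 (abs_nonneg _) (by norm_num)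
    have e3 : |(1.33453 : ℝ)| * |‖Z₁‖ - 1.75736| ≤ 1.33453 * (51 / 100000) := by
      apply mul_le_mul _ k1 (abs_nonneg _) (by norm_num)
      rw [abs_of_pos (by norm_num)]
    norm_num at e2 e3 ⊢
    linarith
  rw [abs_le] at a0 b0 a1 b1 a2 b2 a3 b3 a4 b4 a5 b5 k0 k1 k2 k3 hr
  norm_num [S, R2] at a0 b0 a1 b1 a2 b2 a3 b3 a4 b4 a5 b5 k0 k1 k2 k3 hr ⊢
  fin_cases j
  · simp [vec, C3.X, XL]; rw [abs_le]; norm_num; constructor <;> linarith [a0.1, a0.2]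
  · simp [vec, C3.X, XL]; rw [abs_le]; norm_num; constructor <;> linarith [b0.1, b0.2]
  · simp [vec, C3.X, XL]; rw [abs_le]; norm_num; constructor <;> linarith [a1.1, a1.2]
  · simp [vec, C3.X, XL]; rw [abs_le]; norm_num; constructor <;> linarith [b1.1, b1.2]
  · simp [vec, C3.X, XL]; rw [abs_le]; norm_num; constructor <;> linarith [a2.1, a2.2]
  · simp [vec, C3.X, XL]; rw [abs_le]; norm_num; constructor <;> linarith [b2.1, b2.2]
  · simp [vec, C3.X, XL]; rw [abs_le]; norm_num; constructor <;> linarith [a3.1, a3.2]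
  · simp [vec, C3.X, XL]; rw [abs_le]; norm_num; constructor <;> linarith [b3.1, b3.2]
  · simp [vec, C3.X, XL]; rw [abs_le]; norm_num; constructor <;> linarith [a4.1, a4.2]
  · simp [vec, C3.X, XL]; rw [abs_le]; norm_num; constructor <;> linarith [b4.1, b4.2]
  · simp [vec, C3.X, XL]; rw [abs_le]; norm_num; constructor <;> linarith [a5.1, a5.2]
  · simp [vec, C3.X, XL]; rw [abs_le]; norm_num; constructor <;> linarith [b5.1, b5.2]
  · simp [vec, C3.X, XL]; rw [abs_le]; norm_num; constructor <;> linarith [k0.1, k0.2]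
  · simp [vec, C3.X, XL]; rw [abs_le]; norm_num; constructor <;> linarith [k1.1, k1.2]
  · simp [vec, C3.X, XL]; rw [abs_le]; norm_num; constructor <;> linarith [k2.1, k2.2]
  · simp [vec, C3.X, XL]; rw [abs_le]; norm_num; constructor <;> linarith [hr.1, hr.2]
  · simp [vec, C3.X, XL]; rw [abs_le]; norm_num; constructor <;> linarith [k3.1, k3.2]

theorem exists_sol1 (c : ℝ) (hc : |c - C / S| ≤ 1 / S) :
    ∃ x : Fin 17 → ℝ, (∀ j, |x j - (C3.X j : ℝ) / S| ≤ ((100 : ℤ) : ℝ) / S) ∧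
      (∀ k, (E k).eval c x = 0) ∧
      ∀ y : Fin 17 → ℝ, (∀ j, |y j - (C3.X j : ℝ) / S| ≤ ((100 : ℤ) : ℝ) / S) →
        (∀ k, (E k).eval c y = 0) → y = x :=
  newton E S T 100 (by decide) (by decide) (by decide) C3.X Y C c hc a b e hA hB hC (by decide)
    (by decide)

theorem exists_sol2 (c : ℝ) (hc : |c - C / S| ≤ 1 / S) :
    ∃ x : Fin 17 → ℝ, (∀ j, |x j - (C3.X j : ℝ) / S| ≤ (R2 : ℝ) / S) ∧
      (∀ k, (E k).eval c x = 0) ∧
      ∀ y : Fin 17 → ℝ, (∀ j, |y j - (C3.X j : ℝ) / S| ≤ (R2 : ℝ) / S) →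
        (∀ k, (E k).eval c y = 0) → y = x :=
  newton E S T R2 (by decide) (by decide) (by decide) C3.X Y C c hc a b e hA hB hC (by decide)
    (by decide)

theorem cycle_of_sol {c : ℝ} {x : Fin 17 → ℝ} (hx : ∀ k, (E k).eval c x = 0)
    (hb : ∀ j, |x j - (C3.X j : ℝ) / S| ≤ (R : ℝ) / S) :
    Near (Zf x 0) (Zf x 1) (Zf x 2) (Nf x 1) (Nf x 2) (Nf x 3) ∧
    CriticalCycle c (x 15) (Zf x 0) (Zf x 1) (Zf x 2) (Nf x 1) (Nf x 2) (Nf x 3) := by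
  have H := ext_of hx hb
  constructor
  · have n0 := enc0 hb
    have n1 := enc1 hb
    have n2 := enc2 hb
    have n3 := enc3 hb
    have n4 := enc4 hb
    have n5 := enc5 hb
    have n6 := enc6 hb
    have n7 := enc7 hb
    have n8 := enc8 hb
    have n9 := enc9 hb
    have n10 := enc10 hb
    have n11 := enc11 hb
    rw [abs_le] at n0 n1 n2 n3 n4 n5 n6 n7 n8 n9 n10 n11
    refine ⟨?_, ?_, ?_, ?_, ?_, ?_⟩
    · show ‖(⟨x 0 - 0.02656, x 1 - -0.04621⟩ : ℂ)‖ ≤ 1 / 2000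
      apply norm_le_of (A := 1/10000) (B := 1/10000) (by norm_num) _ _ (by norm_num)
      · rw [abs_le]; constructor <;> linarith [n0.1, n0.2]
      · rw [abs_le]; constructor <;> linarith [n1.1, n1.2]
    · show ‖(⟨x 2 - -1.75735, x 3 - -0.00423⟩ : ℂ)‖ ≤ 1 / 2000
      apply norm_le_of (A := 1/10000) (B := 1/10000) (by norm_num) _ _ (by norm_num)
      · rw [abs_le]; constructor <;> linarith [n2.1, n2.2]
      · rw [abs_le]; constructor <;> linarith [n3.1, n3.2]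
    · show ‖(⟨x 4 - 1.33443, x 5 - 0.01664⟩ : ℂ)‖ ≤ 1 / 2000
      apply norm_le_of (A := 1/10000) (B := 1/10000) (by norm_num) _ _ (by norm_num)
      · rw [abs_le]; constructor <;> linarith [n4.1, n4.2]
      · rw [abs_le]; constructor <;> linarith [n5.1, n5.2]
    · show ‖(⟨x 6 - -0.50722, x 7 - -0.86182⟩ : ℂ)‖ ≤ 1 / 2000
      apply norm_le_of (A := 1/10000) (B := 1/10000) (by norm_num) _ _ (by norm_num)
      · rw [abs_le]; constructor <;> linarith [n6.1, n6.2]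
      · rw [abs_le]; constructor <;> linarith [n7.1, n7.2]
    · show ‖(⟨x 8 - 0.50515, x 9 - 0.86303⟩ : ℂ)‖ ≤ 1 / 2000
      apply norm_le_of (A := 1/10000) (B := 1/10000) (by norm_num) _ _ (by norm_num)
      · rw [abs_le]; constructor <;> linarith [n8.1, n8.2]
      · rw [abs_le]; constructor <;> linarith [n9.1, n9.2]
    · show ‖(⟨x 10 - 0.49434, x 11 - 0.86927⟩ : ℂ)‖ ≤ 1 / 2000
      apply norm_le_of (A := 1/10000) (B := 1/10000) (by norm_num) _ _ (by norm_num)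
      · rw [abs_le]; constructor <;> linarith [n10.1, n10.2]
      · rw [abs_le]; constructor <;> linarith [n11.1, n11.2]
  · have hN0 : (starRingEnd ℂ) (Nf x 3) = Nf x 0 := by rw [H.hNp, Complex.conj_conj]
    refine ⟨H.hN 1 (by norm_num), H.hN 2 (by norm_num), H.hN 3 (by norm_num), H.hZ 0 (by norm_num),
      H.hZ 1 (by norm_num), ?_, ?_, ?_, ?_, ?_⟩
    · rw [← H.hZp]; exact H.hZ 2 (by norm_num)
    · rw [hN0, norm_Zf H 0 (by norm_num)]; exact H.hZN 0 (by norm_num)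
    · rw [norm_Zf H 1 (by norm_num)]; exact H.hZN 1 (by norm_num)
    · rw [norm_Zf H 2 (by norm_num)]; exact H.hZN 2 (by norm_num)
    · rw [norm_Zf H 0 (by norm_num), norm_Zf H 1 (by norm_num), norm_Zf H 2 (by norm_num)]
      have h := H.hprod
      simp only [Finset.prod_range_succ, Finset.prod_range_zero, one_mul] at h
      linarith

theorem root_unique {a b : ℝ} (ha : a ^ 3 + 2 * a ^ 2 + a + 1 = 0)
    (hb : b ^ 3 + 2 * b ^ 2 + b + 1 = 0) : a = b := by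
  have h1 := c_enc ha
  have h2 := c_enc hb
  norm_num [C, S] at h1 h2
  rw [abs_le] at h1 h2
  have e : (a - b) * (a ^ 2 + a * b + b ^ 2 + 2 * (a + b) + 1) = 0 := by
    linear_combination ha - hb
  rcases mul_eq_zero.mp e with h | h
  · linarith
  · exfalso
    nlinarith [h1.1, h1.2, h2.1, h2.2]

theorem root_exists : ∃ c : ℝ, c ^ 3 + 2 * c ^ 2 + c + 1 = 0 := by
  have hc : ContinuousOn (fun c : ℝ => c ^ 3 + 2 * c ^ 2 + c + 1) (Set.Icc (-2) 0) := by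
    fun_prop
  have h := intermediate_value_Icc (by norm_num : (-2 : ℝ) ≤ 0) hc
  have h0 : (0 : ℝ) ∈ Set.Icc ((fun c : ℝ => c ^ 3 + 2 * c ^ 2 + c + 1) (-2))
      ((fun c : ℝ => c ^ 3 + 2 * c ^ 2 + c + 1) 0) := by
    constructor <;> norm_num
  obtain ⟨c, _, hc2⟩ := h h0
  exact ⟨c, hc2⟩

end Pool.Agent.Helper81.RC.C3
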