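import Pool.Agent.Helper81.RC.C3Ext

/-! The real period three centre: numerical conditions and the final statement. -/

set_option autoImplicit false

namespace Pool.Agent.Helper81.RC.C3

open Complex

theorem div_enc {y b v δ β : ℝ} (hβ : 0 < β) (hb : β ≤ |b|) (h : |y - v * b| ≤ δ * β) :
    |y / b - v| ≤ δ := by
  have hb0 : b ≠ 0 := by
    intro h0; rw [h0, abs_zero] at hb; linarith
  have e : y / b - v = (y - v * b) / b := by field_simp
  rw [e, abs_div, div_le_iff₀ (lt_of_lt_of_le hβ hb)]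
  have hδ : 0 ≤ δ := by
    by_contra hneg
    rw [not_le] at hneg
    have := abs_nonneg (y - v * b)
    nlinarith
  nlinarith

theorem mul_enc {a b u v ε A B : ℝ} (ha : |a - u| ≤ ε) (hb : |b - v| ≤ ε) (hA : |a| ≤ A)
    (hB : |v| ≤ B) : |a * b - u * v| ≤ ε * (A + B) := by
  have e : a * b - u * v = a * (b - v) + (a - u) * v := by ring
  rw [e]
  refine (abs_add_le _ _).trans ?_
  rw [abs_mul, abs_mul]
  have h1 := mul_le_mul hA hb (abs_nonneg _) ((abs_nonneg _).trans hA)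
  have h2 := mul_le_mul ha hB (abs_nonneg _) ((abs_nonneg _).trans ha)
  linarith

theorem norm_le_of {x y A B R : ℝ} (hR : 0 ≤ R) (hx : |x| ≤ A) (hy : |y| ≤ B)
    (h : A ^ 2 + B ^ 2 ≤ R ^ 2) : ‖(⟨x, y⟩ : ℂ)‖ ≤ R := by
  apply abs_le_of_sq_le_sq' _ hR |>.2
  rw [Complex.sq_norm, Complex.normSq_apply]
  simp only
  have h1 : x * x ≤ A ^ 2 := by rw [← abs_mul_abs_self, ← pow_two]; exact pow_le_pow_left₀ (abs_nonneg _) hx 2
  have h2 : y * y ≤ B ^ 2 := by rw [← abs_mul_abs_self, ← pow_two]; exact pow_le_pow_left₀ (abs_nonneg _) hy 2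
  linarith

/-- enclosure of the real root -/
theorem c_enc {c : ℝ} (hc : c ^ 3 + 2 * c ^ 2 + c + 1 = 0) : |c - C / S| ≤ 1 / S := by
  have h1 : c < -(17/10) := by
    by_contra hge
    rw [not_lt] at hge
    rcases le_or_gt 0 c with h | h
    · nlinarith [pow_nonneg h 3, pow_nonneg h 2]
    · rcases le_or_gt (-1) c with h2 | h2
      · nlinarith [mul_nonneg (by linarith : 0 ≤ -c) (by linarith : 0 ≤ 1 + c), sq_nonneg (c + 1),
          mul_nonneg (mul_nonneg (by linarith : 0 ≤ -c) (by linarith : 0 ≤ 1 + c)) (by linarith : 0 ≤ 1 + c)]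
      · have h3 : (c + 1) ^ 2 ≤ (7/10) ^ 2 := by
          apply sq_le_sq' <;> linarith
        nlinarith
  norm_num [C, S]
  rw [abs_le]
  constructor
  · by_contra hlt
    rw [not_le] at hlt
    nlinarith [mul_pos (by linarith : 0 < -c - 17/10) (by linarith : 0 < -c - 17/10)]
  · by_contra hlt
    rw [not_le] at hlt
    nlinarith [mul_pos (by linarith : 0 < -c - 17/10) (by linarith : 0 < -c - 17/10)]

theorem rad0 {x : Fin 17 → ℝ} (hb : ∀ j, |x j - (C3.X j : ℝ) / S| ≤ (R : ℝ) / S) :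
    |rad (Zf x 0) (Nf x 0) - (531568674) / 10^10| ≤ 1 / 10^8 := by
  have n1 := enc1 hb
  have n2 := enc11 hb
  show |(x 1) / (-x 11) - (531568674) / 10^10| ≤ 1 / 10^8
  rw [abs_le] at n1 n2
  apply div_enc (β := 8/10) (by norm_num)
  · rw [le_abs]
    first
      | (left; linarith [n2.1, n2.2])
      | (right; linarith [n2.1, n2.2])
  · rw [abs_le]
    constructor <;> linarith [n1.1, n1.2, n2.1, n2.2]

theorem cen0 {x : Fin 17 → ℝ} (hb : ∀ j, |x j - (C3.X j : ℝ) / S| ≤ (R : ℝ) / S) :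
    |cen (Zf x 0) (Nf x 0) - (2867675) / 10^10| ≤ 3 / 10^8 := by
  have h0 := rad0 hb
  have n1 := enc0 hb
  have n2 := enc10 hb
  show |x 0 - rad (Zf x 0) (Nf x 0) * x 10 - (2867675) / 10^10| ≤ 3 / 10^8
  have h1 := mul_enc (A := 1) (B := 1) h0 (n2.trans (by norm_num))
    (by rw [abs_le] at h0 ⊢; constructor <;> linarith [h0.1, h0.2]) (by norm_num [abs_le])
  rw [abs_le] at n1 h1 ⊢
  constructor <;> linarith [n1.1, n1.2, h1.1, h1.2]

theorem rad1 {x : Fin 17 → ℝ} (hb : ∀ j, |x j - (C3.X j : ℝ) / S| ≤ (R : ℝ) / S) :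
    |rad (Zf x 1) (Nf x 1) - (49077666) / 10^10| ≤ 1 / 10^8 := by
  have n1 := enc3 hb
  have n2 := enc7 hb
  show |(x 3) / (x 7) - (49077666) / 10^10| ≤ 1 / 10^8
  rw [abs_le] at n1 n2
  apply div_enc (β := 8/10) (by norm_num)
  · rw [le_abs]
    first
      | (left; linarith [n2.1, n2.2])
      | (right; linarith [n2.1, n2.2])
  · rw [abs_le]
    constructor <;> linarith [n1.1, n1.2, n2.1, n2.2]

theorem cen1 {x : Fin 17 → ℝ} (hb : ∀ j, |x j - (C3.X j : ℝ) / S| ≤ (R : ℝ) / S) :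
    |cen (Zf x 1) (Nf x 1) - (-17548622496) / 10^10| ≤ 3 / 10^8 := by
  have h0 := rad1 hb
  have n1 := enc2 hb
  have n2 := enc6 hb
  show |x 2 - rad (Zf x 1) (Nf x 1) * x 6 - (-17548622496) / 10^10| ≤ 3 / 10^8
  have h1 := mul_enc (A := 1) (B := 1) h0 (n2.trans (by norm_num))
    (by rw [abs_le] at h0 ⊢; constructor <;> linarith [h0.1, h0.2]) (by norm_num [abs_le])
  rw [abs_le] at n1 h1 ⊢
  constructor <;> linarith [n1.1, n1.2, h1.1, h1.2]

theorem rad2 {x : Fin 17 → ℝ} (hb : ∀ j, |x j - (C3.X j : ℝ) / S| ≤ (R : ℝ) / S) :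
    |rad (Zf x 2) (Nf x 2) - (192841651) / 10^10| ≤ 1 / 10^8 := by
  have n1 := enc5 hb
  have n2 := enc9 hb
  show |(x 5) / (x 9) - (192841651) / 10^10| ≤ 1 / 10^8
  rw [abs_le] at n1 n2
  apply div_enc (β := 8/10) (by norm_num)
  · rw [le_abs]
    first
      | (left; linarith [n2.1, n2.2])
      | (right; linarith [n2.1, n2.2])
  · rw [abs_le]
    constructor <;> linarith [n1.1, n1.2, n2.1, n2.2]

theorem cen2 {x : Fin 17 → ℝ} (hb : ∀ j, |x j - (C3.X j : ℝ) / S| ≤ (R : ℝ) / S) :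
    |cen (Zf x 2) (Nf x 2) - (13246878669) / 10^10| ≤ 3 / 10^8 := by
  have h0 := rad2 hb
  have n1 := enc4 hb
  have n2 := enc8 hb
  show |x 4 - rad (Zf x 2) (Nf x 2) * x 8 - (13246878669) / 10^10| ≤ 3 / 10^8
  have h1 := mul_enc (A := 1) (B := 1) h0 (n2.trans (by norm_num))
    (by rw [abs_le] at h0 ⊢; constructor <;> linarith [h0.1, h0.2]) (by norm_num [abs_le])
  rw [abs_le] at n1 h1 ⊢
  constructor <;> linarith [n1.1, n1.2, h1.1, h1.2]

theorem rad3 {x : Fin 17 → ℝ} (hb : ∀ j, |x j - (C3.X j : ℝ) / S| ≤ (R : ℝ) / S) :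
    |rad (Zf x 3) (Nf x 3) - (531568674) / 10^10| ≤ 1 / 10^8 := by
  have n1 := enc1 hb
  have n2 := enc11 hb
  show |(-x 1) / (x 11) - (531568674) / 10^10| ≤ 1 / 10^8
  rw [abs_le] at n1 n2
  apply div_enc (β := 8/10) (by norm_num)
  · rw [le_abs]
    first
      | (left; linarith [n2.1, n2.2])
      | (right; linarith [n2.1, n2.2])
  · rw [abs_le]
    constructor <;> linarith [n1.1, n1.2, n2.1, n2.2]

theorem cen3 {x : Fin 17 → ℝ} (hb : ∀ j, |x j - (C3.X j : ℝ) / S| ≤ (R : ℝ) / S) :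
    |cen (Zf x 3) (Nf x 3) - (2867675) / 10^10| ≤ 3 / 10^8 := by
  have h0 := rad3 hb
  have n1 := enc0 hb
  have n2 := enc10 hb
  show |x 0 - rad (Zf x 3) (Nf x 3) * x 10 - (2867675) / 10^10| ≤ 3 / 10^8
  have h1 := mul_enc (A := 1) (B := 1) h0 (n2.trans (by norm_num))
    (by rw [abs_le] at h0 ⊢; constructor <;> linarith [h0.1, h0.2]) (by norm_num [abs_le])
  rw [abs_le] at n1 h1 ⊢
  constructor <;> linarith [n1.1, n1.2, h1.1, h1.2]

theorem D_eq (x : Fin 17 → ℝ) :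
    Nf x 1 * Nf x 3 = ⟨x 6 * x 10 - x 7 * x 11, x 6 * x 11 + x 7 * x 10⟩ := by
  apply Complex.ext <;> simp [Nf]

theorem d1_enc {x : Fin 17 → ℝ} (hb : ∀ j, |x j - (C3.X j : ℝ) / S| ≤ (R : ℝ) / S) :
    |(x 6 * x 10 - x 7 * x 11) - (4984044712) / 10^10| ≤ 5 / 10^10 := by
  have n6 := enc6 hb
  have n7 := enc7 hb
  have n10 := enc10 hb
  have n11 := enc11 hb
  have h1 := mul_enc (A := 1) (B := 1) n6 n10
    (by rw [abs_le] at n6 ⊢; constructor <;> linarith [n6.1, n6.2]) (by norm_num [abs_le])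
  have h2 := mul_enc (A := 1) (B := 1) n7 n11
    (by rw [abs_le] at n7 ⊢; constructor <;> linarith [n7.1, n7.2]) (by norm_num [abs_le])
  rw [abs_le] at h1 h2 ⊢
  constructor <;> linarith [h1.1, h1.2, h2.1, h2.2]

theorem d2_enc {x : Fin 17 → ℝ} (hb : ∀ j, |x j - (C3.X j : ℝ) / S| ≤ (R : ℝ) / S) :
    |(x 6 * x 11 + x 7 * x 10) - (-8669446252) / 10^10| ≤ 5 / 10^10 := by
  have n6 := enc6 hb
  have n7 := enc7 hb
  have n10 := enc10 hb
  have n11 := enc11 hb
  have h1 := mul_enc (A := 1) (B := 1) n6 n11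
    (by rw [abs_le] at n6 ⊢; constructor <;> linarith [n6.1, n6.2]) (by norm_num [abs_le])
  have h2 := mul_enc (A := 1) (B := 1) n7 n10
    (by rw [abs_le] at n7 ⊢; constructor <;> linarith [n7.1, n7.2]) (by norm_num [abs_le])
  rw [abs_le] at h1 h2 ⊢
  constructor <;> linarith [h1.1, h1.2, h2.1, h2.2]

theorem ND_enc {x : Fin 17 → ℝ} (hb : ∀ j, |x j - (C3.X j : ℝ) / S| ≤ (R : ℝ) / S) :
    |(Nf x 3 * (Nf x 1 * Nf x 3)).re - (9999890631) / 10^10| ≤ 4 / 10^9 ∧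
    |(Nf x 3 * (Nf x 1 * Nf x 3)).im - (46769412) / 10^10| ≤ 4 / 10^9 := by
  have n10 := enc10 hb
  have n11 := enc11 hb
  have h1 := d1_enc hb
  have h2 := d2_enc hb
  rw [D_eq]
  have e1 : (Nf x 3 * (⟨x 6 * x 10 - x 7 * x 11, x 6 * x 11 + x 7 * x 10⟩ : ℂ)).re
      = x 10 * (x 6 * x 10 - x 7 * x 11) - x 11 * (x 6 * x 11 + x 7 * x 10) := by simp [Nf]
  have e2 : (Nf x 3 * (⟨x 6 * x 10 - x 7 * x 11, x 6 * x 11 + x 7 * x 10⟩ : ℂ)).im
      = x 10 * (x 6 * x 11 + x 7 * x 10) + x 11 * (x 6 * x 10 - x 7 * x 11) := by simp [Nf]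
  rw [e1, e2]
  generalize x 6 * x 10 - x 7 * x 11 = d1 at h1 ⊢
  generalize x 6 * x 11 + x 7 * x 10 = d2 at h2 ⊢
  have b10 : |x 10| ≤ 1 := by rw [abs_le] at n10 ⊢; constructor <;> linarith [n10.1, n10.2]
  have b11 : |x 11| ≤ 1 := by rw [abs_le] at n11 ⊢; constructor <;> linarith [n11.1, n11.2]
  have m10 : |x 10 - (4943443711) / 10^10| ≤ 5 / 10^10 := n10.trans (by norm_num)
  have m11 : |x 11 - (8692661518) / 10^10| ≤ 5 / 10^10 := n11.trans (by norm_num)
  have k1 := mul_enc (A := 1) (B := 1) m10 h1 b10 (by norm_num [abs_le])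
  have k2 := mul_enc (A := 1) (B := 1) m11 h2 b11 (by norm_num [abs_le])
  have k3 := mul_enc (A := 1) (B := 1) m10 h2 b10 (by norm_num [abs_le])
  have k4 := mul_enc (A := 1) (B := 1) m11 h1 b11 (by norm_num [abs_le])
  rw [abs_le] at k1 k2 k3 k4
  constructor
  · rw [abs_le]; constructor <;> linarith [k1.1, k1.2, k2.1, k2.2]
  · rw [abs_le]; constructor <;> linarith [k3.1, k3.2, k4.1, k4.2]

theorem norm_Zf {c : ℝ} {x : Fin 17 → ℝ} (H : Ext 3 c (x 15) (Zf x) (Nf x) (mf x)) (j : ℕ)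
    (hj : j < 3) : ‖Zf x j‖ = mf x j := by
  have h := congrArg norm (H.hZN j hj)
  rw [norm_mul, norm_mul, H.hN j (by omega), H.hN (j + 1) (by omega), mul_one, mul_one,
    Complex.norm_real, Real.norm_eq_abs, abs_of_pos (H.hm j hj)] at h
  exact h

theorem hprop {c : ℝ} {x : Fin 17 → ℝ} (hb : ∀ j, |x j - (C3.X j : ℝ) / S| ≤ (R : ℝ) / S)
    (H : Ext 3 c (x 15) (Zf x) (Nf x) (mf x)) (δ : ℂ) (hδ : ‖δ‖ ≤ 225/100000) :
    ‖prop (Zf x) 2 δ - (∏ i ∈ Finset.range 2, 2 * Zf x (i + 1)) * δ‖ ≤ 1504/100 * ‖δ‖ ^ 2 := by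
  have z1 := norm_Zf H 1 (by norm_num)
  have z2 := norm_Zf H 2 (by norm_num)
  have n13 := enc13 hb
  have n14 := enc14 hb
  rw [abs_le] at n13 n14
  have e1 : mf x 1 = x 13 := rfl
  have e2 : mf x 2 = x 14 := rfl
  rw [e1] at z1
  rw [e2] at z2
  have e3 : prop (Zf x) 2 δ - (∏ i ∈ Finset.range 2, 2 * Zf x (i + 1)) * δ
      = δ ^ 2 * (2 * Zf x 2 + (2 * Zf x 1 + δ) ^ 2) := by
    simp [Finset.prod_range_succ, prop]; ring
  rw [e3, norm_mul, norm_pow, mul_comm]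
  apply mul_le_mul_of_nonneg_right _ (by positivity)
  have f1 : ‖2 * Zf x 1 + δ‖ ≤ 2 * x 13 + 225/100000 := by
    refine (norm_add_le _ _).trans ?_
    rw [norm_mul, z1]; simp; linarith
  have f2 : ‖2 * Zf x 2 + (2 * Zf x 1 + δ) ^ 2‖ ≤ 2 * x 14 + (2 * x 13 + 225/100000) ^ 2 := by
    refine (norm_add_le _ _).trans ?_
    rw [norm_mul, z2, norm_pow]
    have := pow_le_pow_left₀ (norm_nonneg _) f1 2
    simp; linarith
  refine f2.trans ?_
  have f3 : (2 * x 13 + 225/100000) ^ 2 ≤ (2 * (17573566676 / 10^10) + 225/100000) ^ 2 := by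
    apply pow_le_pow_left₀ (by linarith [n13.1])
    linarith [n13.2]
  norm_num at f3 ⊢
  linarith [n14.2]

def startL : List (ℤ × ℤ) := [(-1755920, -1770), (1329410, 7990), (13406, 23029), (-1756270, 2388), (1330639, -10160), (16636, -28824), (-1756474, -2729), (1331352, 11361)]
def exitL : List (ℤ × ℤ) := [(1338290, 23320), (36615, 64203), (-1758701, 6472), (1339147, -24537), (38851, -67503), (-1758967, -7015), (1340075, 26453), (41239, 72683), (-1759502, 7765), (1341946, -29098), (46110, -79882), (-1760175, -9137), (1344291, 33938), (52105, 93032), (-1761860, 11465), (1350178, -42173), (67339, -115667), (-1764508, -17476), (1359092, 63571), (88998, 174695), (-1778928, 32548), (1410100, -117254), (220542, -332578), (-1818300, -148147), (1530176, 540649), (294260, 1656630), (-4414609, 975746)]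
def C4 : ℤ := -1754877666247
def R4 : ℤ := 2057171983

theorem ok_start : okChain 1000000 C4 R4 (0, 0) startL = true := by decide +kernel
theorem ok_exit : okChain 1000000 C4 R4 (-1758456, -6127) exitL = true := by decide +kernel

theorem c4 {c : ℝ} (hc : |c - C / S| ≤ 1 / S) : |c - C4 / ((1000000 : ℤ) : ℝ) ^ 2| ≤ 1 / 10^12 := by
  norm_num [C, S, C4] at hc ⊢
  rw [abs_le] at hc ⊢
  constructor <;> linarith [hc.1, hc.2]

theorem r4 {x : Fin 17 → ℝ} (hb : ∀ j, |x j - (C3.X j : ℝ) / S| ≤ (R : ℝ) / S) :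
    (R4 : ℝ) / ((1000000 : ℤ) : ℝ) ^ 2 + 1 / 10^12 ≤ x 15 := by
  have n := enc15 hb
  rw [abs_le] at n
  norm_num [R4] at n ⊢
  linarith [n.1]

theorem hstart {c : ℝ} {x : Fin 17 → ℝ} (hc : |c - C / S| ≤ 1 / S)
    (hb : ∀ j, |x j - (C3.X j : ℝ) / S| ≤ (R : ℝ) / S) (O : ℂ → Prop) (O0 : O 0)
    (O2 : ∀ z w : ℂ, O z → ‖w - (z ^ 2 + c)‖ ≤ x 15 → O w)
    (O3 : ∀ z : ℂ, O z → O ((starRingEnd ℂ) z)) : O ((((71/2000) : ℝ) : ℂ) * (Nf x 1 * Nf x 3)) := by
  have h1 := okChain_reach (S := 1000000) (by norm_num) (by norm_num [R4]) (c4 hc) (r4 hb) O O2 startL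
    (0, 0) ok_start (by
      have e : pt 1000000 (0, 0) = 0 := by apply Complex.ext <;> simp [pt]
      rw [e]; exact O0)
  have e1 : lastOf (0, 0) startL = (1331352, 11361) := by decide
  rw [e1] at h1
  have h2 : O ((((71/2000) : ℝ) : ℂ) * (starRingEnd ℂ) (Nf x 1 * Nf x 3)) := by
    apply O2 _ _ h1
    rw [D_eq]
    have e2 : ((((71/2000) : ℝ) : ℂ) * (starRingEnd ℂ) ⟨x 6 * x 10 - x 7 * x 11, x 6 * x 11 + x 7 * x 10⟩)
        - (pt 1000000 (1331352, 11361) ^ 2 + c)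
        = ⟨(71/2000) * (x 6 * x 10 - x 7 * x 11) - ((1331352 / 1000000) ^ 2 - (11361 / 1000000) ^ 2) - c,
           -((71/2000) * (x 6 * x 11 + x 7 * x 10)) - 2 * (1331352 / 1000000) * (11361 / 1000000)⟩ := by
      unfold pt
      apply Complex.ext
      · simp [pow_two]; ring
      · simp [pow_two]; ring
    rw [e2]
    have k1 := d1_enc hb
    have k2 := d2_enc hb
    have n := enc15 hb
    norm_num [C, S] at hc
    rw [abs_le] at k1 k2 n hc
    apply norm_le_of (A := 2021 / 10^7) (B := 5257 / 10^7) (by linarith [n.1])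
    · rw [abs_le]; constructor <;> linarith [k1.1, k1.2, hc.1, hc.2]
    · rw [abs_le]; constructor <;> linarith [k2.1, k2.2]
    · have : (2059/1000000 : ℝ) ^ 2 ≤ (x 15) ^ 2 := by
        apply pow_le_pow_left₀ (by norm_num)
        linarith [n.1]
      norm_num at this ⊢
      linarith
  have h3 := O3 _ h2
  rwa [map_mul, Complex.conj_ofReal, Complex.conj_conj] at h3

theorem hexit {c : ℝ} {x : Fin 17 → ℝ} (hc : |c - C / S| ≤ 1 / S)
    (hb : ∀ j, |x j - (C3.X j : ℝ) / S| ≤ (R : ℝ) / S) (O : ℂ → Prop)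
    (O1 : O ((((71/1000) : ℝ) : ℂ) * (Nf x 1 * Nf x 3)))
    (O2 : ∀ z w : ℂ, O z → ‖w - (z ^ 2 + c)‖ ≤ x 15 → O w) : ∃ w, O w ∧ 5/2 ≤ ‖w‖ := by
  have h2 : O (pt 1000000 (-1758456, -6127)) := by
    apply O2 _ _ O1
    rw [D_eq]
    have k1 := d1_enc hb
    have k2 := d2_enc hb
    generalize x 6 * x 10 - x 7 * x 11 = d1 at k1 ⊢
    generalize x 6 * x 11 + x 7 * x 10 = d2 at k2 ⊢
    have e2 : pt 1000000 (-1758456, -6127) - (((((71/1000) : ℝ) : ℂ) * (⟨d1, d2⟩ : ℂ)) ^ 2 + c)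
        = ⟨-1758456 / 1000000 - (71/1000) ^ 2 * (d1 * d1 - d2 * d2) - c,
           -6127 / 1000000 - (71/1000) ^ 2 * (2 * (d1 * d2))⟩ := by
      unfold pt
      apply Complex.ext
      · simp [pow_two]; ring
      · simp [pow_two]; ring
    rw [e2]
    have n := enc15 hb
    have b1 : |d1| ≤ 1 := by rw [abs_le] at k1 ⊢; constructor <;> linarith [k1.1, k1.2]
    have b2 : |d2| ≤ 1 := by rw [abs_le] at k2 ⊢; constructor <;> linarith [k2.1, k2.2]
    have m1 := mul_enc (A := 1) (B := 1) k1 k1 b1 (by norm_num [abs_le])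
    have m2 := mul_enc (A := 1) (B := 1) k2 k2 b2 (by norm_num [abs_le])
    have m3 := mul_enc (A := 1) (B := 1) k1 k2 b1 (by norm_num [abs_le])
    norm_num [C, S] at hc
    rw [abs_le] at m1 m2 m3 n hc
    apply norm_le_of (A := 10419 / 10^7) (B := 17708 / 10^7) (by linarith [n.1])
    · rw [abs_le]; constructor <;> linarith [m1.1, m1.2, m2.1, m2.2, hc.1, hc.2]
    · rw [abs_le]; constructor <;> linarith [m3.1, m3.2]
    · have : (2059/1000000 : ℝ) ^ 2 ≤ (x 15) ^ 2 := by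
        apply pow_le_pow_left₀ (by norm_num)
        linarith [n.1]
      norm_num at this ⊢
      linarith
  have h3 := okChain_reach (S := 1000000) (by norm_num) (by norm_num [R4]) (c4 hc) (r4 hb) O O2 exitL
    (-1758456, -6127) ok_exit h2
  have e1 : lastOf (-1758456, -6127) exitL = (-4414609, 975746) := by decide
  rw [e1] at h3
  exact ⟨_, h3, pt_norm (by norm_num) (by norm_num)⟩

theorem main {c : ℝ} (hc3 : c ^ 3 + 2 * c ^ 2 + c + 1 = 0) {x : Fin 17 → ℝ}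
    (hx : ∀ k, (E k).eval c x = 0) (hb : ∀ j, |x j - (C3.X j : ℝ) / S| ≤ (R : ℝ) / S) (r' : ℝ) :
    Bornology.IsBounded (totalOrbit c r') ↔ r' ≤ x 15 := by
  have hc := c_enc hc3
  have H := ext_of hx hb
  have n12 := enc12 hb
  have n15 := enc15 hb
  have n7 := enc7 hb
  have n9 := enc9 hb
  have n11 := enc11 hb
  have r0 := rad0 hb
  have r1 := rad1 hb
  have r2 := rad2 hb
  have r3 := rad3 hb
  have c0 := cen0 hb
  have c1 := cen1 hb
  have c2 := cen2 hb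
  have c3 := cen3 hb
  obtain ⟨g1, g2⟩ := ND_enc hb
  have hcn := hc
  norm_num [C, S] at hcn
  rw [abs_le] at n12 n15 n7 n9 n11 r0 r1 r2 r3 c0 c1 c2 c3 g1 g2 hcn
  refine iff_of_ext (q := 2) H (by linarith [n15.1]) (by rw [abs_le]; constructor <;> linarith [hcn.1, hcn.2])
    ?_ ?_ ?_ ?_ ?_ (Nf x 1 * Nf x 3) ?_ ?_ (1504/100) (225/100000) (by norm_num) (hprop hb H)
    (18/1000) (936/100000) (9379/1000) (by norm_num) ?_ ?_ ?_ ?_ ?_ (71/2000) (71/1000) ?_ (by norm_num) ?_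
    (fun O O0 O2 O3 => hstart hc hb O O0 O2 O3) (fun O O1 O2 O3 => hexit hc hb O O1 O2) r'
  · intro j hj
    interval_cases j
    · show -x 11 ≠ 0
      intro h; linarith [n11.1]
    · show x 7 ≠ 0
      intro h; linarith [n7.2]
    · show x 9 ≠ 0
      intro h; linarith [n9.1]
    · show x 11 ≠ 0
      intro h; linarith [n11.1]
  · intro j hj
    interval_cases j
    · linarith [r0.1]
    · linarith [r1.1]
    · linarith [r2.1]
  · intro j hj
    interval_cases j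
    · show cen (Zf x 0) (Nf x 0) ^ 2 < cen (Zf x 1) (Nf x 1) - c
      nlinarith [c0.1, c0.2, c1.1, hcn.2]
    · show cen (Zf x 1) (Nf x 1) ^ 2 < cen (Zf x 2) (Nf x 2) - c
      nlinarith [c1.1, c1.2, c2.1, hcn.2]
    · show cen (Zf x 2) (Nf x 2) ^ 2 < cen (Zf x 3) (Nf x 3) - c
      nlinarith [c2.1, c2.2, c3.1, hcn.2]
  · intro j hj
    interval_cases j
    · linarith [r0.1, n15.2]
    · linarith [r1.1, n15.2]
    · linarith [r2.1, n15.2]
    · linarith [r3.1, n15.2]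
  · rw [abs_le]; constructor <;> linarith [c0.1, c0.2, r0.1]
  · rw [norm_mul, H.hN 1 (by norm_num), H.hN 3 (by norm_num), mul_one]
  · have h := H.hZN 0 (by norm_num)
    rw [zero_add] at h
    have hNN : Nf x 0 * Nf x 3 = 1 := by
      rw [H.hNp, Complex.mul_conj, Complex.normSq_eq_norm_sq, H.hN 0 (by norm_num)]
      norm_num
    linear_combination (Nf x 3) * h - (Zf x 0) * hNN
  · show _ ≤ x 12
    linarith [n12.1]
  · show _ * (2 * x 12 + _) ≤ _
    linarith [n12.2]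
  · have e : (2 * (Nf x 3 * (Nf x 1 * Nf x 3)).im) = 2 * (Nf x 3 * (Nf x 1 * Nf x 3)).im := rfl
    show |2 * (Nf x 3 * (Nf x 1 * Nf x 3)).im| ≤ _
    rw [abs_le]; constructor <;> linarith [g2.1, g2.2]
  · show _ ≤ (Nf x 3 * (Nf x 1 * Nf x 3)).re / (2 * x 12)
    rw [le_div_iff₀ (by linarith [n12.1])]
    linarith [g1.1, n12.2]
  · show (_ + _ * (1 / (2 * x 12) + _ * (2 * x 12 + _) ^ 2)) ^ 2
      ≤ 2 * x 15 * (_ - _ * (2 * x 12 + _) ^ 2)
    have a1 : 1 / (2 * x 12) ≤ 93811/10000 := by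
      rw [div_le_iff₀ (by linarith [n12.1])]
      linarith [n12.1]
    have a2 : (2 * x 12 + 18/1000) ^ 2 ≤ 1553/100000 := by
      have : (2 * x 12 + 18/1000) ^ 2 ≤ (1246/10000) ^ 2 := by
        apply pow_le_pow_left₀ (by linarith [n12.1])
        linarith [n12.2]
      norm_num at this ⊢
      linarith
    have a3 : 0 ≤ 1 / (2 * x 12) := by
      apply div_nonneg zero_le_one; linarith [n12.1]
    have a4 : 0 ≤ (2 * x 12 + 18/1000) ^ 2 := by positivity
    generalize (2 * x 12 + 18/1000) ^ 2 = u at a2 a4 ⊢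
    generalize 1 / (2 * x 12) = v at a1 a3 ⊢
    have b1 : (936 / 100000 + 18/1000 * (v + 1504/100 * u)) ^ 2 ≤ (1825/10000) ^ 2 := by
      apply pow_le_pow_left₀ (by positivity)
      linarith
    have b2 : 2 * (2059/1000000 : ℝ) * (9379/1000 - 1504/100 * (1553/100000))
        ≤ 2 * x 15 * (9379/1000 - 1504/100 * u) := by
      apply mul_le_mul
      · linarith [n15.1]
      · linarith
      · norm_num
      · linarith [n15.1]
    norm_num at b1 b2 ⊢
    linarith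
  · show x 12 - _ ≤ _
    linarith [n12.2]
  · show _ ≤ x 12 + _
    linarith [n12.1]

end Pool.Agent.Helper81.RC.C3
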