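import Mathlib

set_option autoImplicit false

namespace Pool.Agent.Helper81.RC

open Complex

/-- one step of a rational chain, checked in integers: points are `(X, Y) / S`, `C ≈ c S²`,
the allowed control is `R / S²` -/
def okStep (S C R : ℤ) (a b : ℤ × ℤ) : Bool :=
  decide ((S * b.1 - (a.1 * a.1 - a.2 * a.2) - C) * (S * b.1 - (a.1 * a.1 - a.2 * a.2) - C)
    + (S * b.2 - 2 * a.1 * a.2) * (S * b.2 - 2 * a.1 * a.2) ≤ R * R)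

def okChain (S C R : ℤ) : ℤ × ℤ → List (ℤ × ℤ) → Bool
  | _, [] => true
  | a, b :: l => okStep S C R a b && okChain S C R b l

def lastOf : ℤ × ℤ → List (ℤ × ℤ) → ℤ × ℤ
  | a, [] => a
  | _, b :: l => lastOf b l

noncomputable def pt (S : ℤ) (a : ℤ × ℤ) : ℂ := ⟨(a.1 : ℝ) / S, (a.2 : ℝ) / S⟩

theorem okStep_norm {S C R : ℤ} (hS : 0 < S) (hR : 0 ≤ R) {a b : ℤ × ℤ}
    (h : okStep S C R a b = true) {c ε : ℝ} (hc : |c - C / (S : ℝ) ^ 2| ≤ ε) :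
    ‖pt S b - (pt S a ^ 2 + c)‖ ≤ R / (S : ℝ) ^ 2 + ε := by
  have hS' : (0 : ℝ) < S := by exact_mod_cast hS
  have hR' : (0 : ℝ) ≤ R := by exact_mod_cast hR
  unfold okStep at h
  have h1 := of_decide_eq_true h
  have h2 : ((S:ℝ) * b.1 - (a.1 * a.1 - a.2 * a.2) - C) * ((S:ℝ) * b.1 - (a.1 * a.1 - a.2 * a.2) - C)
    + ((S:ℝ) * b.2 - 2 * a.1 * a.2) * ((S:ℝ) * b.2 - 2 * a.1 * a.2) ≤ (R:ℝ) * R := by
    exact_mod_cast h1
  have e1 : pt S b - (pt S a ^ 2 + c) = (pt S b - (pt S a ^ 2 + ((C / (S:ℝ) ^ 2 : ℝ) : ℂ)))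
      - ((c - C / (S : ℝ) ^ 2 : ℝ) : ℂ) := by push_cast; ring
  rw [e1]
  refine (norm_sub_le _ _).trans ?_
  apply add_le_add
  · have e2 : pt S b - (pt S a ^ 2 + ((C / (S:ℝ) ^ 2 : ℝ) : ℂ))
        = ⟨((S:ℝ) * b.1 - (a.1 * a.1 - a.2 * a.2) - C) / (S:ℝ) ^ 2,
          ((S:ℝ) * b.2 - 2 * a.1 * a.2) / (S:ℝ) ^ 2⟩ := by
      obtain ⟨K, hK⟩ : ∃ K : ℝ, K = C / (S:ℝ) ^ 2 := ⟨_, rfl⟩
      have hK2 : (C : ℝ) = K * (S:ℝ) ^ 2 := by rw [hK]; field_simp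
      rw [← hK, hK2]
      unfold pt
      apply Complex.ext
      · simp [pow_two]; field_simp; ring
      · simp [pow_two]; field_simp; ring
    rw [e2]
    apply abs_le_of_sq_le_sq' _ (by positivity) |>.2
    rw [Complex.sq_norm, Complex.normSq_apply]
    simp only
    have e3 : ((S:ℝ) * b.1 - (a.1 * a.1 - a.2 * a.2) - C) / (S:ℝ) ^ 2 *
        (((S:ℝ) * b.1 - (a.1 * a.1 - a.2 * a.2) - C) / (S:ℝ) ^ 2)
        + ((S:ℝ) * b.2 - 2 * a.1 * a.2) / (S:ℝ) ^ 2 * (((S:ℝ) * b.2 - 2 * a.1 * a.2) / (S:ℝ) ^ 2)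
        = (((S:ℝ) * b.1 - (a.1 * a.1 - a.2 * a.2) - C) * ((S:ℝ) * b.1 - (a.1 * a.1 - a.2 * a.2) - C)
    + ((S:ℝ) * b.2 - 2 * a.1 * a.2) * ((S:ℝ) * b.2 - 2 * a.1 * a.2)) / ((S:ℝ) ^ 2) ^ 2 := by
      field_simp
    rw [e3, div_pow, div_le_div_iff_of_pos_right (by positivity)]
    linarith
  · rw [Complex.norm_real, Real.norm_eq_abs]; exact hc

theorem okChain_reach {S C R : ℤ} (hS : 0 < S) (hR : 0 ≤ R) {c ε r : ℝ}
    (hc : |c - C / (S : ℝ) ^ 2| ≤ ε) (hr : R / (S : ℝ) ^ 2 + ε ≤ r) (O : ℂ → Prop)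
    (O2 : ∀ z w : ℂ, O z → ‖w - (z ^ 2 + c)‖ ≤ r → O w) :
    ∀ (l : List (ℤ × ℤ)) (a : ℤ × ℤ), okChain S C R a l = true → O (pt S a) →
      O (pt S (lastOf a l)) := by
  intro l
  induction l with
  | nil => intro a _ h; exact h
  | cons b l ih =>
    intro a h ha
    unfold okChain at h
    rw [Bool.and_eq_true] at h
    apply ih b h.2
    exact O2 _ _ ha ((okStep_norm hS hR h.1 hc).trans hr)

theorem escape {c r : ℝ} (hr : 0 ≤ r) (hc : |c| ≤ 2) (O : ℂ → Prop)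
    (O2 : ∀ z w : ℂ, O z → ‖w - (z ^ 2 + c)‖ ≤ r → O w) (w : ℂ) (hw : O w) (hn : 5/2 ≤ ‖w‖)
    (B : ℝ) : ∃ z, O z ∧ B < ‖z‖ := by
  have key : ∀ n : ℕ, ∃ z, O z ∧ 5/2 + (n:ℝ) ≤ ‖z‖ := by
    intro n
    induction n with
    | zero => exact ⟨w, hw, by simpa using hn⟩
    | succ n ih =>
      obtain ⟨z, hz, hz2⟩ := ih
      refine ⟨z ^ 2 + c, O2 z _ hz (by simpa using hr), ?_⟩
      have h1 : ‖z‖ ^ 2 - 2 ≤ ‖z ^ 2 + c‖ := by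
        have h2 := norm_sub_le (z ^ 2 + (c : ℂ)) (c : ℂ)
        have e : z ^ 2 + (c : ℂ) - c = z ^ 2 := by ring
        rw [e, norm_pow, Complex.norm_real, Real.norm_eq_abs] at h2
        linarith
      push_cast
      have hn : (0:ℝ) ≤ n := Nat.cast_nonneg n
      nlinarith
  obtain ⟨n, hn⟩ := exists_nat_gt B
  obtain ⟨z, hz, hz2⟩ := key n
  exact ⟨z, hz, by linarith⟩

theorem pt_norm {S : ℤ} (hS : 0 < S) {a : ℤ × ℤ} (h : 25 * (S * S) ≤ 4 * (a.1 * a.1 + a.2 * a.2)) :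
    5/2 ≤ ‖pt S a‖ := by
  have hS' : (0 : ℝ) < S := by exact_mod_cast hS
  have h' : 25 * ((S:ℝ) * S) ≤ 4 * (a.1 * a.1 + a.2 * a.2) := by exact_mod_cast h
  apply abs_le_of_sq_le_sq' _ (norm_nonneg _) |>.2
  rw [Complex.sq_norm, Complex.normSq_apply]
  unfold pt
  simp only
  have e : (a.1 : ℝ) / S * (a.1 / S) + (a.2 : ℝ) / S * (a.2 / S)
      = (a.1 * a.1 + a.2 * a.2) / (S * S) := by field_simp
  rw [e, le_div_iff₀ (by positivity)]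
  linarith

end Pool.Agent.Helper81.RC
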