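import Mathlib

/-!
# Random quadratic iteration: the definitions of MP_89b535_an
-/

set_option autoImplicit false

namespace Pool.Agent.Helper81.RC

open Complex

/-- `f_c(z) = z² + c`, as an element of the monoid of self-maps of `ℂ` under composition. -/
def quad (c : ℂ) : Function.End ℂ := fun z => z ^ 2 + c

/-- The semigroup `G_{c,r}` generated, under composition, by the maps `f_{c'}` with
`|c' - c| ≤ r`. -/
def G (c : ℂ) (r : ℝ) : Subsemigroup (Function.End ℂ) :=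
  Subsemigroup.closure {g | ∃ c' : ℂ, ‖c' - c‖ ≤ r ∧ g = quad c'}

/-- The set of total orbits of the critical point `0`: `{g(0) : g ∈ G_{c,r}}`. -/
def totalOrbit (c : ℂ) (r : ℝ) : Set ℂ := {z | ∃ g ∈ G c r, z = g 0}

/-- The bifurcation radius of a superattracting centre `c`:
`r_bif(c) = sup {r ≥ 0 : {g(0) : g ∈ G_{c,r}} is bounded}`. -/
noncomputable def rbif (c : ℂ) : ℝ := sSup {r : ℝ | 0 ≤ r ∧ Bornology.IsBounded (totalOrbit c r)}

theorem orbit_base {c : ℂ} {r : ℝ} (c' : ℂ) (h : ‖c' - c‖ ≤ r) : c' ∈ totalOrbit c r := by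
  refine ⟨quad c', Subsemigroup.subset_closure ⟨c', h, rfl⟩, ?_⟩
  simp [quad]

theorem orbit_step {c : ℂ} {r : ℝ} (z c' : ℂ) (hz : z ∈ totalOrbit c r) (h : ‖c' - c‖ ≤ r) :
    z ^ 2 + c' ∈ totalOrbit c r := by
  obtain ⟨g, hg, rfl⟩ := hz
  exact ⟨quad c' * g, Subsemigroup.mul_mem _ (Subsemigroup.subset_closure ⟨c', h, rfl⟩) hg, rfl⟩

theorem orbit_ind {c : ℂ} {r : ℝ} (p : ℂ → Prop) (h1 : ∀ c' : ℂ, ‖c' - c‖ ≤ r → p c')
    (h2 : ∀ z c' : ℂ, p z → ‖c' - c‖ ≤ r → p (z ^ 2 + c')) :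
    ∀ z ∈ totalOrbit c r, p z := by
  have key : ∀ g ∈ G c r, p (g 0) ∧ ∀ z, p z → p (g z) := by
    intro g hg
    induction hg using Subsemigroup.closure_induction with
    | mem x hx =>
      obtain ⟨c', hc', rfl⟩ := hx
      refine ⟨?_, fun z hz => h2 z c' hz hc'⟩
      have : quad c' 0 = c' := by simp [quad]
      rw [this]; exact h1 c' hc'
    | mul x y hx hy ihx ihy =>
      exact ⟨ihx.2 _ ihy.1, fun z hz => ihx.2 _ (ihy.2 z hz)⟩
  rintro z ⟨g, hg, rfl⟩
  exact (key g hg).1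

theorem orbit_conj {c : ℝ} {r : ℝ} (z : ℂ) (hz : z ∈ totalOrbit c r) :
    (starRingEnd ℂ) z ∈ totalOrbit c r := by
  refine orbit_ind (fun z => (starRingEnd ℂ) z ∈ totalOrbit c r) ?_ ?_ z hz
  · intro c' hc'
    apply orbit_base
    have e : (starRingEnd ℂ) c' - (c : ℂ) = (starRingEnd ℂ) (c' - c) := by simp
    rw [e, Complex.norm_conj]; exact hc'
  · intro w c' hw hc'
    have e : (starRingEnd ℂ) (w ^ 2 + c') = ((starRingEnd ℂ) w) ^ 2 + (starRingEnd ℂ) c' := by simp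
    simp only [e]
    apply orbit_step _ _ hw
    have e : (starRingEnd ℂ) c' - (c : ℂ) = (starRingEnd ℂ) (c' - c) := by simp
    rw [e, Complex.norm_conj]; exact hc'

/-- Invariant regions give bounded orbits. -/
theorem bounded_of_regions {c : ℝ} {r : ℝ} (U : ℂ → Prop) (h0 : U 0)
    (hU : ∀ z, U z → ∀ c' : ℂ, ‖c' - c‖ ≤ r → U (z ^ 2 + c')) (K : ℝ) (hK : ∀ z, U z → ‖z‖ ≤ K) :
    Bornology.IsBounded (totalOrbit c r) := by
  rw [isBounded_iff_forall_norm_le]
  refine ⟨K, ?_⟩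
  intro z hz
  apply hK
  refine orbit_ind U ?_ (fun z c' hz hc' => hU z hz c' hc') z hz
  intro c' hc'
  have := hU 0 h0 c' hc'
  simpa using this

/-- Unboundedness from abstract moves. -/
theorem unbounded_of_moves {c : ℝ} {r : ℝ}
    (h : ∀ O : ℂ → Prop, O 0 → (∀ z w : ℂ, O z → ‖w - (z ^ 2 + c)‖ ≤ r → O w) →
      (∀ z : ℂ, O z → O ((starRingEnd ℂ) z)) → ∀ B : ℝ, ∃ z, O z ∧ B < ‖z‖) :
    ¬ Bornology.IsBounded (totalOrbit c r) := by
  intro hb
  obtain ⟨B, hB⟩ := isBounded_iff_forall_norm_le.mp hb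
  obtain ⟨z, hz, hz2⟩ := h (fun z => z = 0 ∨ z ∈ totalOrbit c r) (Or.inl rfl) (by
    rintro z w (rfl | hz) hw
    · right
      apply orbit_base
      simpa using hw
    · right
      have := orbit_step z (w - z ^ 2) hz (by
        have e : w - z ^ 2 - (c : ℂ) = w - (z ^ 2 + c) := by ring
        rw [e]; exact hw)
      have e : z ^ 2 + (w - z ^ 2) = w := by ring
      rwa [e] at this) (by
    rintro z (rfl | hz)
    · left; simp
    · right; exact orbit_conj z hz) (max B 0)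
  rcases hz with rfl | hz
  · simp at hz2
  · have := hB z hz
    have := le_max_left B 0
    linarith

theorem rbif_eq_of_iff {c r : ℝ} (hr : 0 ≤ r)
    (h : ∀ r' : ℝ, Bornology.IsBounded (totalOrbit c r') ↔ r' ≤ r) : rbif c = r := by
  have hset : {r' : ℝ | 0 ≤ r' ∧ Bornology.IsBounded (totalOrbit c r')} = Set.Icc 0 r := by
    ext r'
    simp only [Set.mem_ofPred_eq, Set.mem_Icc, h]
  unfold rbif
  rw [hset]
  exact csSup_Icc hr

end Pool.Agent.Helper81.RC
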