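import Pool.Agent.Helper81.RB.Lower

/-!
Extremal conjugation symmetric cycles of the controlled quadratic map, any period.
-/

set_option autoImplicit false

namespace Pool.Agent.Helper81.RC

open Complex Pool.Agent.Helper81.RB

/-- A conjugation symmetric extremal cycle of length `p`: points `Z`, unit normals `N`,
moduli `m`. -/
structure Ext (p : ℕ) (c r : ℝ) (Z N : ℕ → ℂ) (m : ℕ → ℝ) : Prop where
  hN : ∀ j, j ≤ p → ‖N j‖ = 1
  hm : ∀ j, j < p → 0 < m j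
  hZN : ∀ j, j < p → Z j * N j = m j * N (j + 1)
  hZ : ∀ j, j < p → Z (j + 1) = Z j ^ 2 + c + r * N (j + 1)
  hZp : Z p = (starRingEnd ℂ) (Z 0)
  hNp : N p = (starRingEnd ℂ) (N 0)
  hprod : 2 ^ p * ∏ j ∈ Finset.range p, m j = 1

/-- radius and centre of the disc with real centre that touches at `Z` with normal `N` -/
noncomputable def rad (Z N : ℂ) : ℝ := Z.im / N.im
noncomputable def cen (Z N : ℂ) : ℝ := Z.re - rad Z N * N.re

theorem disc_step {c r : ℝ} {Z N Z' N' : ℂ} {m : ℝ}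
    (hN : ‖N‖ = 1) (hN' : ‖N'‖ = 1) (hi : N.im ≠ 0) (hi' : N'.im ≠ 0)
    (hZN : Z * N = m * N') (hZ : Z' = Z ^ 2 + c + r * N')
    (hρ : 0 < rad Z N) (hk : (cen Z N) ^ 2 < cen Z' N' - c) (hr : r ≤ rad Z' N')
    (z : ℂ) (hz : ‖z - (cen Z N : ℂ)‖ ≤ rad Z N) (c' : ℂ) (hc' : ‖c' - c‖ ≤ r) :
    ‖z ^ 2 + c' - (cen Z' N' : ℂ)‖ ≤ rad Z' N' := by
  obtain ⟨X, Yi⟩ := Z
  obtain ⟨n1, n2⟩ := N
  obtain ⟨X', Y'⟩ := Z'
  obtain ⟨k1, k2⟩ := N'
  have hcs : n1 ^ 2 + n2 ^ 2 = 1 := by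
    have := Complex.sq_norm (⟨n1, n2⟩ : ℂ)
    rw [hN, Complex.normSq_apply] at this
    simp only at this
    linarith
  have hcs' : k1 ^ 2 + k2 ^ 2 = 1 := by
    have := Complex.sq_norm (⟨k1, k2⟩ : ℂ)
    rw [hN', Complex.normSq_apply] at this
    simp only at this
    linarith
  simp only at hi hi'
  have e1 : X * n1 - Yi * n2 = m * k1 := by
    have := congrArg Complex.re hZN
    simpa using this
  have e2 : X * n2 + Yi * n1 = m * k2 := by
    have := congrArg Complex.im hZN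
    simpa using this
  have e3 : X' = X ^ 2 - Yi ^ 2 + c + r * k1 := by
    have := congrArg Complex.re hZ
    simp [pow_two] at this
    rw [this]; ring
  have e4 : Y' = 2 * X * Yi + r * k2 := by
    have := congrArg Complex.im hZ
    simp [pow_two] at this
    rw [this]; ring
  set ρ := rad ⟨X, Yi⟩ ⟨n1, n2⟩ with hρd
  set σ := rad ⟨X', Y'⟩ ⟨k1, k2⟩ with hσd
  set a := cen ⟨X, Yi⟩ ⟨n1, n2⟩ with had
  set b := cen ⟨X', Y'⟩ ⟨k1, k2⟩ with hbd
  have f1 : ρ * n2 = Yi := by rw [hρd]; unfold rad; simp only; field_simp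
  have f2 : σ * k2 = Y' := by rw [hσd]; unfold rad; simp only; field_simp
  have f3 : a + ρ * n1 = X := by
    rw [had]; unfold cen; simp only; rw [← hρd]; ring
  have f4 : b + σ * k1 = X' := by
    rw [hbd]; unfold cen; simp only; rw [← hσd]; ring
  clear_value ρ σ a b
  have A1 : (a + ρ * n1) ^ 2 - (ρ * n2) ^ 2 - (b - c) = (σ - r) * k1 := by
    rw [f3, f1]; linear_combination -f4 - e3
  have A2 : 2 * (a + ρ * n1) * (ρ * n2) = (σ - r) * k2 := by
    rw [f3, f1]; linear_combination -f2 - e4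
  have hNm : ((a + ρ * n1) ^ 2 - (ρ * n2) ^ 2 - (b - c)) ^ 2 + (2 * (a + ρ * n1) * (ρ * n2)) ^ 2
      = (σ - r) ^ 2 := by
    rw [A1, A2]; linear_combination (σ - r) ^ 2 * hcs'
  have hT : a * (ρ ^ 2 + a ^ 2 - (b - c)) + 2 * ρ * (a ^ 2 - (b - c)) * n1 = 0 := by
    have h1 := T_eq (a := a) (ρ := ρ) (k := b - c) hcs
    rw [A1, A2, f3, f1] at h1
    have h2 : n2 * (a * (ρ ^ 2 + a ^ 2 - (b - c)) + 2 * ρ * (a ^ 2 - (b - c)) * n1) = 0 := by
      rw [h1]
      linear_combination (σ - r) * k1 * e2 - (σ - r) * k2 * e1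
    exact (mul_eq_zero.mp h2).resolve_left hi
  have h1 := disc_lemma hcs hρ hk hT (M := σ - r) (by linarith) hNm z hz
  have h2 : z ^ 2 + c' - (b : ℂ) = (z ^ 2 - ((b - c : ℝ) : ℂ)) + (c' - c) := by
    push_cast; ring
  rw [h2]
  have := norm_add_le (z ^ 2 - ((b - c : ℝ) : ℂ)) (c' - c)
  linarith

end Pool.Agent.Helper81.RC
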