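import Pool.Agent.Helper81.RC.Gen

set_option autoImplicit false

namespace Pool.Agent.Helper81.RC

open Complex

/-- error propagation along the cycle: `P 0 δ = δ`, `P (j+1) δ = P j δ (2 Z_{j+1} + P j δ)` -/
noncomputable def prop (Z : ℕ → ℂ) : ℕ → ℂ → ℂ
  | 0, δ => δ
  | j + 1, δ => prop Z j δ * (2 * Z (j + 1) + prop Z j δ)

/-- orbit with the extremal controls, started at `w` -/
noncomputable def orb (c r : ℝ) (N : ℕ → ℂ) : ℕ → ℂ → ℂ
  | 0, w => w
  | j + 1, w => orb c r N j w ^ 2 + c + r * N (j + 1)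

theorem orb_eq {p : ℕ} {c r : ℝ} {Z N : ℕ → ℂ} {m : ℕ → ℝ} (H : Ext p c r Z N m) (w : ℂ) :
    ∀ j, j < p → orb c r N (j + 1) w = Z (j + 1) + prop Z j (w ^ 2 - Z 0 ^ 2) := by
  intro j
  induction j with
  | zero =>
    intro hj
    have h := H.hZ 0 hj
    simp only [orb, prop]
    rw [zero_add] at h ⊢
    rw [h]; ring
  | succ j ih =>
    intro hj
    have h := H.hZ (j + 1) hj
    have h1 := ih (by omega)
    have h2 : orb c r N (j + 1 + 1) w = orb c r N (j + 1) w ^ 2 + c + r * N (j + 1 + 1) := rfl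
    rw [h2, h1, h]
    simp only [prop]
    ring

/-- `Λ_j = ∏_{1 ≤ i ≤ j} 2 Z_i` satisfies `Λ_j N_1 = (∏ 2 m_i) N_{j+1}`. -/
theorem lam_eq {p : ℕ} {c r : ℝ} {Z N : ℕ → ℂ} {m : ℕ → ℝ} (H : Ext p c r Z N m) :
    ∀ j, j < p → (∏ i ∈ Finset.range j, 2 * Z (i + 1)) * N 1
      = ((∏ i ∈ Finset.range j, 2 * m (i + 1) : ℝ) : ℂ) * N (j + 1) := by
  intro j
  induction j with
  | zero => intro _; simp
  | succ j ih =>
    intro hj
    rw [Finset.prod_range_succ, Finset.prod_range_succ]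
    have h := ih (by omega)
    have h2 := H.hZN (j + 1) hj
    push_cast at h ⊢
    linear_combination 2 * Z (j + 1) * h
      + 2 * (∏ i ∈ Finset.range j, (2 * (m (i + 1) : ℂ))) * h2

theorem conj_mul_self {N : ℂ} (h : ‖N‖ = 1) : (starRingEnd ℂ) N * N = 1 := by
  rw [mul_comm, Complex.mul_conj, Complex.normSq_eq_norm_sq, h]; simp

/-- the step along the ray -/
theorem ray_step {q : ℕ} {c r r' : ℝ} {Z N : ℕ → ℂ} {m : ℕ → ℝ} (H : Ext (q + 1) c r Z N m)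
    (hr : 0 ≤ r) (hr' : r ≤ r') (O : ℂ → Prop)
    (O2 : ∀ z w : ℂ, O z → ‖w - (z ^ 2 + c)‖ ≤ r' → O w)
    (O3 : ∀ z : ℂ, O z → O ((starRingEnd ℂ) z))
    (D : ℂ) (hD : ‖D‖ = 1) (hZ0 : Z 0 = m 0 * D) (Q B : ℝ) (hQ : 0 ≤ Q)
    (hprop : ∀ δ : ℂ, ‖δ‖ ≤ B → ‖prop Z q δ - (∏ i ∈ Finset.range q, 2 * Z (i + 1)) * δ‖
      ≤ Q * ‖δ‖ ^ 2)
    (τ y κ : ℝ) (hτ : 0 ≤ τ) (hτm : τ ≤ m 0) (hB : τ * (2 * m 0 + τ) ≤ B)
    (hy : |2 * (N (q + 1) * D).im| ≤ y) (hκ : κ ≤ (N (q + 1) * D).re / (2 * m 0))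
    (hmain : (y + τ * (1 / (2 * m 0) + Q * (2 * m 0 + τ) ^ 2)) ^ 2
      ≤ 2 * r * (κ - Q * (2 * m 0 + τ) ^ 2))
    (s s2 : ℝ) (h1 : m 0 - τ ≤ s) (h2 : s ≤ m 0 + τ) (h3 : s ≤ s2) (h4 : s2 ≤ s + (r' - r))
    (hO : O ((s : ℂ) * D)) : O ((s2 : ℂ) * D) := by
  have hm0 : 0 < m 0 := H.hm 0 (by omega)
  set P := q + 1 with hP
  set Λ : ℂ := ∏ i ∈ Finset.range q, 2 * Z (i + 1) with hΛ
  set t : ℝ := s - m 0 with ht
  have htτ : |t| ≤ τ := by rw [abs_le]; constructor <;> linarith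
  -- unimodular relations
  have hNP : ‖N P‖ = 1 := H.hN P le_rfl
  have hN0 : (starRingEnd ℂ) (N 0) = N P := H.hNp.symm
  have hZN0 := H.hZN 0 (by omega)
  rw [zero_add] at hZN0
  have hmC : (m 0 : ℂ) ≠ 0 := by exact_mod_cast hm0.ne'
  have hN1 : N 1 = D * N 0 := by
    have : (m 0 : ℂ) * N 1 = (m 0 : ℂ) * (D * N 0) := by rw [← hZN0, hZ0]; ring
    exact mul_left_cancel₀ hmC this
  have hNN : N P * N 0 = 1 := by
    rw [← hN0]; exact conj_mul_self (H.hN 0 (by omega))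
  have hDD : (starRingEnd ℂ) D * D = 1 := conj_mul_self hD
  have hprodm : 2 * m 0 * ∏ i ∈ Finset.range q, 2 * m (i + 1) = 1 := by
    have h := H.hprod
    rw [Finset.prod_range_succ', pow_succ] at h
    rw [Finset.prod_mul_distrib, Finset.prod_const, Finset.card_range]
    linarith
  have hΛ2 : 2 * (m 0 : ℂ) * Λ * D ^ 2 = N P ^ 2 * D := by
    have h := lam_eq H q (by omega)
    rw [← hΛ, hN1] at h
    have h5 : ((2 * m 0 * ∏ i ∈ Finset.range q, 2 * m (i + 1) : ℝ) : ℂ) = 1 := by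
      rw [hprodm]; simp
    push_cast at h5 h
    have h6 : 2 * (m 0 : ℂ) * Λ * (D * N 0) = N P := by
      rw [← hP] at h
      calc 2 * (m 0 : ℂ) * Λ * (D * N 0) = 2 * (m 0 : ℂ) * (Λ * (D * N 0)) := by ring
        _ = 2 * (m 0 : ℂ) * ((∏ i ∈ Finset.range q, (2 * (m (i + 1) : ℂ))) * N P) := by rw [h]
        _ = (2 * (m 0 : ℂ) * (∏ i ∈ Finset.range q, (2 * (m (i + 1) : ℂ)))) * N P := by ring
        _ = N P := by rw [h5, one_mul]
    linear_combination (N P * D) * h6 - (2 * (m 0 : ℂ) * Λ * D ^ 2) * hNN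
  have hnΛ : ‖Λ‖ = 1 / (2 * m 0) := by
    have h := congrArg norm hΛ2
    rw [norm_mul, norm_mul, norm_mul, norm_pow, norm_mul, norm_pow, hD, hNP, Complex.norm_real,
      Real.norm_eq_abs, abs_of_pos hm0] at h
    have h2 : ‖(2:ℂ)‖ = 2 := by simp
    rw [h2] at h
    field_simp
    linarith
  -- the error
  set δ : ℂ := ((s : ℂ) * D) ^ 2 - Z 0 ^ 2 with hδ
  have hδ2 : δ = D ^ 2 * ((t * (t + 2 * m 0) : ℝ) : ℂ) := by
    rw [hδ, hZ0, ht]; push_cast; ring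
  have ht2 : 0 ≤ t + 2 * m 0 := by rw [ht]; linarith
  have ht3 : t + 2 * m 0 ≤ 2 * m 0 + τ := by rw [ht]; linarith
  have hnδ : ‖δ‖ = |t| * (t + 2 * m 0) := by
    rw [hδ2, norm_mul, norm_pow, hD, Complex.norm_real, Real.norm_eq_abs, abs_mul,
      abs_of_nonneg ht2]; ring
  have hnδB : ‖δ‖ ≤ B := by
    rw [hnδ]
    refine le_trans (mul_le_mul htτ ht3 ht2 hτ) hB
  set E : ℂ := prop Z q δ - Λ * δ with hE
  have hEn : ‖E‖ ≤ Q * (|t| * (2 * m 0 + τ)) ^ 2 := by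
    refine (hprop δ hnδB).trans ?_
    apply mul_le_mul_of_nonneg_left _ hQ
    rw [hnδ]
    apply pow_le_pow_left₀ (by positivity)
    exact mul_le_mul_of_nonneg_left ht3 (abs_nonneg t)
  set X : ℂ := prop Z q δ - (starRingEnd ℂ) D * t with hX
  set Y0 : ℂ := N P ^ 2 * D - (starRingEnd ℂ) D with hY0
  have hXe : X = t * Y0 + Λ * D ^ 2 * t ^ 2 + E := by
    have e1 : prop Z q δ = Λ * δ + E := by rw [hE]; ring
    rw [hX, e1, hδ2, hY0]
    push_cast
    linear_combination (t : ℂ) * hΛ2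
  have hcN : (starRingEnd ℂ) (N P) * N P = 1 := conj_mul_self hNP
  have hY0c : (starRingEnd ℂ) (N P) * Y0 = N P * D - (starRingEnd ℂ) (N P * D) := by
    rw [hY0, map_mul]
    linear_combination (N P * D) * hcN
  have hreY : ((starRingEnd ℂ) (N P) * Y0).re = 0 := by
    rw [hY0c]; simp
  have hnY : ‖Y0‖ ≤ y := by
    have e1 : ‖(starRingEnd ℂ) (N P) * Y0‖ = ‖Y0‖ := by
      rw [norm_mul, Complex.norm_conj, hNP, one_mul]
    rw [← e1, hY0c]
    have e2 : N P * D - (starRingEnd ℂ) (N P * D) = ((2 * (N P * D).im : ℝ) : ℂ) * I := by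
      apply Complex.ext <;> simp; ring
    rw [e2, norm_mul, Complex.norm_I, mul_one, Complex.norm_real, Real.norm_eq_abs]
    exact hy
  have hreΛ : ((starRingEnd ℂ) (N P) * (Λ * D ^ 2)).re = (N P * D).re / (2 * m 0) := by
    have e1 : ((2 * m 0 : ℝ) : ℂ) * ((starRingEnd ℂ) (N P) * (Λ * D ^ 2)) = N P * D := by
      push_cast
      linear_combination (starRingEnd ℂ) (N P) * hΛ2 + (N P * D) * hcN
    have e2 := congrArg Complex.re e1
    rw [Complex.re_ofReal_mul] at e2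
    rw [eq_div_iff (by positivity)]
    linarith
  -- the inner product
  have hreX : t ^ 2 * (κ - Q * (2 * m 0 + τ) ^ 2) ≤ ((starRingEnd ℂ) (N P) * X).re := by
    have e1 : (starRingEnd ℂ) (N P) * X = (t : ℂ) * ((starRingEnd ℂ) (N P) * Y0)
        + ((t ^ 2 : ℝ) : ℂ) * ((starRingEnd ℂ) (N P) * (Λ * D ^ 2))
        + (starRingEnd ℂ) (N P) * E := by
      rw [hXe]; push_cast; ring
    rw [e1, Complex.add_re, Complex.add_re, Complex.re_ofReal_mul, Complex.re_ofReal_mul, hreY,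
      hreΛ]
    have e2 : -(Q * (|t| * (2 * m 0 + τ)) ^ 2) ≤ ((starRingEnd ℂ) (N P) * E).re := by
      have e3 : |((starRingEnd ℂ) (N P) * E).re| ≤ ‖E‖ := by
        refine (Complex.abs_re_le_norm _).trans ?_
        rw [norm_mul, Complex.norm_conj, hNP, one_mul]
      have := neg_abs_le ((starRingEnd ℂ) (N P) * E).re
      linarith
    have e4 : (|t| * (2 * m 0 + τ)) ^ 2 = t ^ 2 * (2 * m 0 + τ) ^ 2 := by
      rw [mul_pow, sq_abs]
    rw [e4] at e2
    have e5 : t ^ 2 * κ ≤ t ^ 2 * ((N P * D).re / (2 * m 0)) :=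
      mul_le_mul_of_nonneg_left hκ (sq_nonneg t)
    linarith
  have hnX : ‖X‖ ≤ |t| * (y + τ * (1 / (2 * m 0) + Q * (2 * m 0 + τ) ^ 2)) := by
    have e1 : ‖X‖ ≤ |t| * y + 1 / (2 * m 0) * |t| ^ 2 + Q * (|t| * (2 * m 0 + τ)) ^ 2 := by
      rw [hXe]
      refine (norm_add_le _ _).trans ?_
      apply add_le_add _ hEn
      refine (norm_add_le _ _).trans ?_
      apply add_le_add
      · rw [norm_mul, Complex.norm_real, Real.norm_eq_abs]
        exact mul_le_mul_of_nonneg_left hnY (abs_nonneg t)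
      · rw [norm_mul, norm_mul, norm_pow, norm_pow, hD, hnΛ, Complex.norm_real, Real.norm_eq_abs]
        simp
    refine e1.trans ?_
    have e2 : |t| ^ 2 ≤ |t| * τ := by
      rw [pow_two]; exact mul_le_mul_of_nonneg_left htτ (abs_nonneg t)
    have e3 : 0 < 1 / (2 * m 0) := by positivity
    have e4 : 0 ≤ Q * (2 * m 0 + τ) ^ 2 := by positivity
    have e5 : Q * (|t| * (2 * m 0 + τ)) ^ 2 = (Q * (2 * m 0 + τ) ^ 2) * |t| ^ 2 := by ring
    rw [e5]
    nlinarith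
  have hfin : ‖(r : ℂ) * N P - X‖ ≤ r := by
    apply abs_le_of_sq_le_sq' _ hr |>.2
    have e1 : ‖(r : ℂ) * N P - X‖ ^ 2
        = r ^ 2 - 2 * r * ((starRingEnd ℂ) (N P) * X).re + ‖X‖ ^ 2 := by
      have e2 : ∀ z : ℂ, ‖z‖ ^ 2 = ((starRingEnd ℂ) z * z).re := by
        intro z
        rw [mul_comm, Complex.mul_conj, Complex.normSq_eq_norm_sq, Complex.ofReal_re]
      rw [e2, e2 X]
      have e3 : (starRingEnd ℂ) ((r : ℂ) * N P - X) * ((r : ℂ) * N P - X)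
          = ((r ^ 2 : ℝ) : ℂ) * ((starRingEnd ℂ) (N P) * N P)
            - (r : ℂ) * ((starRingEnd ℂ) (N P) * X) - (r : ℂ) * ((starRingEnd ℂ) X * N P)
            + (starRingEnd ℂ) X * X := by
        rw [map_sub, map_mul, Complex.conj_ofReal]; push_cast; ring
      have e4 : ((starRingEnd ℂ) X * N P).re = ((starRingEnd ℂ) (N P) * X).re := by
        have : (starRingEnd ℂ) X * N P = (starRingEnd ℂ) ((starRingEnd ℂ) (N P) * X) := by
          rw [map_mul, Complex.conj_conj, mul_comm]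
        rw [this, Complex.conj_re]
      rw [e3, hcN]
      simp only [Complex.add_re, Complex.sub_re, Complex.re_ofReal_mul, e4, mul_one]
      rw [Complex.ofReal_re]
      ring
    rw [e1]
    have e5 : ‖X‖ ^ 2 ≤ t ^ 2 * (2 * r * (κ - Q * (2 * m 0 + τ) ^ 2)) := by
      have := pow_le_pow_left₀ (norm_nonneg X) hnX 2
      rw [mul_pow, sq_abs] at this
      refine this.trans ?_
      exact mul_le_mul_of_nonneg_left hmain (sq_nonneg t)
    have e6 : 2 * r * (t ^ 2 * (κ - Q * (2 * m 0 + τ) ^ 2)) ≤ 2 * r * ((starRingEnd ℂ) (N P) * X).re :=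
      mul_le_mul_of_nonneg_left hreX (by linarith)
    linarith
  -- reachability
  have horb : ∀ j, j ≤ q → O (orb c r N j ((s : ℂ) * D)) := by
    intro j
    induction j with
    | zero => intro _; exact hO
    | succ j ih =>
      intro hj
      apply O2 _ _ (ih (by omega))
      have e1 : orb c r N (j + 1) ((s : ℂ) * D) - (orb c r N j ((s : ℂ) * D) ^ 2 + c)
          = r * N (j + 1) := by
        simp only [orb]; ring
      rw [e1, norm_mul, H.hN (j + 1) (by omega), mul_one, Complex.norm_real, Real.norm_eq_abs,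
        abs_of_nonneg hr]
      exact hr'
  have hland : O ((s2 : ℂ) * (starRingEnd ℂ) D) := by
    apply O2 _ _ (horb q le_rfl)
    have e1 := orb_eq H ((s : ℂ) * D) q (by omega)
    have e2 : orb c r N (q + 1) ((s : ℂ) * D) = orb c r N q ((s : ℂ) * D) ^ 2 + c + r * N (q + 1) :=
      rfl
    have e3 : orb c r N q ((s : ℂ) * D) ^ 2 + c = Z P + prop Z q δ - r * N P := by
      rw [hP, hδ]
      linear_combination e1 - e2
    rw [e3, H.hZp, hZ0, map_mul, Complex.conj_ofReal]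
    have e4 : (s2 : ℂ) * (starRingEnd ℂ) D - ((m 0 : ℂ) * (starRingEnd ℂ) D + prop Z q δ - r * N P)
        = ((s2 - s : ℝ) : ℂ) * (starRingEnd ℂ) D + ((r : ℂ) * N P - X) := by
      rw [hX, ht]; push_cast; ring
    rw [e4]
    refine (norm_add_le _ _).trans ?_
    rw [norm_mul, Complex.norm_real, Real.norm_eq_abs, abs_of_nonneg (by linarith : 0 ≤ s2 - s),
      Complex.norm_conj, hD]
    linarith
  have := O3 _ hland
  rwa [map_mul, Complex.conj_ofReal, Complex.conj_conj] at this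

/-- going along the ray -/
theorem ray {q : ℕ} {c r r' : ℝ} {Z N : ℕ → ℂ} {m : ℕ → ℝ} (H : Ext (q + 1) c r Z N m)
    (hr : 0 ≤ r) (hr' : r < r') (O : ℂ → Prop)
    (O2 : ∀ z w : ℂ, O z → ‖w - (z ^ 2 + c)‖ ≤ r' → O w)
    (O3 : ∀ z : ℂ, O z → O ((starRingEnd ℂ) z))
    (D : ℂ) (hD : ‖D‖ = 1) (hZ0 : Z 0 = m 0 * D) (Q B : ℝ) (hQ : 0 ≤ Q)
    (hprop : ∀ δ : ℂ, ‖δ‖ ≤ B → ‖prop Z q δ - (∏ i ∈ Finset.range q, 2 * Z (i + 1)) * δ‖
      ≤ Q * ‖δ‖ ^ 2)
    (τ y κ : ℝ) (hτ : 0 ≤ τ) (hτm : τ ≤ m 0) (hB : τ * (2 * m 0 + τ) ≤ B)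
    (hy : |2 * (N (q + 1) * D).im| ≤ y) (hκ : κ ≤ (N (q + 1) * D).re / (2 * m 0))
    (hmain : (y + τ * (1 / (2 * m 0) + Q * (2 * m 0 + τ) ^ 2)) ^ 2
      ≤ 2 * r * (κ - Q * (2 * m 0 + τ) ^ 2))
    (s0 s1 : ℝ) (h1 : m 0 - τ ≤ s0) (h2 : s0 ≤ s1) (h3 : s1 ≤ m 0 + τ)
    (hO : O ((s0 : ℂ) * D)) : O ((s1 : ℂ) * D) := by
  have hδ : 0 < r' - r := by linarith
  have key : ∀ n : ℕ, O (((min s1 (s0 + n * (r' - r)) : ℝ) : ℂ) * D) := by
    intro n
    induction n with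
    | zero =>
      have e : min s1 (s0 + ((0:ℕ):ℝ) * (r' - r)) = s0 := by
        rw [Nat.cast_zero, zero_mul, add_zero]; exact min_eq_right h2
      rw [e]; exact hO
    | succ n ih =>
      have hn : (0:ℝ) ≤ n * (r' - r) := by positivity
      refine ray_step H hr hr'.le O O2 O3 D hD hZ0 Q B hQ hprop τ y κ hτ hτm hB hy hκ hmain
        _ _ ?_ ?_ ?_ ?_ ih
      · exact le_min (by linarith) (by linarith)
      · exact (min_le_left _ _).trans h3
      · push_cast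
        exact min_le_min le_rfl (by nlinarith)
      · push_cast
        rw [← min_add_add_right]
        exact min_le_min (by linarith) (by nlinarith)
  obtain ⟨n, hn⟩ := exists_nat_gt ((s1 - s0) / (r' - r))
  have h5 : s1 - s0 < n * (r' - r) := by
    rw [div_lt_iff₀ hδ] at hn; exact hn
  have := key n
  rwa [min_eq_left (by linarith)] at this

end Pool.Agent.Helper81.RC
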