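import Pool.Agent.Helper81.RC.Gen2
import Pool.Agent.Helper81.RC.Chain
import Pool.Agent.Helper81.RC.Defs

set_option autoImplicit false

namespace Pool.Agent.Helper81.RC

open Complex

/-- Lower bound: the orbit is bounded for `r' ≤ r`. -/
theorem bounded_of_ext {q : ℕ} {c r : ℝ} {Z N : ℕ → ℂ} {m : ℕ → ℝ} (H : Ext (q + 1) c r Z N m)
    (him : ∀ j, j ≤ q + 1 → (N j).im ≠ 0)
    (hρ : ∀ j, j ≤ q → 0 < rad (Z j) (N j))
    (hk : ∀ j, j ≤ q → (cen (Z j) (N j)) ^ 2 < cen (Z (j + 1)) (N (j + 1)) - c)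
    (hrρ : ∀ j, j ≤ q + 1 → r ≤ rad (Z j) (N j))
    (h0 : |cen (Z 0) (N 0)| ≤ rad (Z 0) (N 0)) (r' : ℝ) (hr' : r' ≤ r) :
    Bornology.IsBounded (totalOrbit c r') := by
  set U : ℂ → Prop := fun z => ∃ j, j ≤ q ∧ ‖z - (cen (Z j) (N j) : ℂ)‖ ≤ rad (Z j) (N j) with hU
  have hrp : rad (Z (q + 1)) (N (q + 1)) = rad (Z 0) (N 0) := by
    rw [H.hZp, H.hNp]; unfold rad; simp [neg_div_neg_eq]
  have hcp : cen (Z (q + 1)) (N (q + 1)) = cen (Z 0) (N 0) := by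
    have h := hrp
    rw [H.hZp, H.hNp] at h ⊢
    unfold cen
    rw [h]
    simp
  apply bounded_of_regions U (K := ∑ j ∈ Finset.range (q + 1),
    (|cen (Z j) (N j)| + rad (Z j) (N j)))
  · refine ⟨0, Nat.zero_le _, ?_⟩
    rw [zero_sub, norm_neg, Complex.norm_real, Real.norm_eq_abs]; exact h0
  · rintro z ⟨j, hj, hz⟩ c' hc'
    have h1 := disc_step (H.hN j (by omega)) (H.hN (j + 1) (by omega)) (him j (by omega))
      (him (j + 1) (by omega)) (H.hZN j (by omega)) (H.hZ j (by omega)) (hρ j hj) (hk j hj)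
      (hrρ (j + 1) (by omega)) z hz c' (hc'.trans hr')
    rcases Nat.lt_or_ge j q with h | h
    · exact ⟨j + 1, by omega, h1⟩
    · have : j = q := le_antisymm hj h
      subst this
      rw [hrp, hcp] at h1
      exact ⟨0, Nat.zero_le _, h1⟩
  · rintro z ⟨j, hj, hz⟩
    have h1 : ‖z‖ ≤ |cen (Z j) (N j)| + rad (Z j) (N j) := by
      have h2 := norm_le_norm_add_norm_sub' z (cen (Z j) (N j) : ℂ)
      rw [Complex.norm_real, Real.norm_eq_abs] at h2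
      linarith
    refine h1.trans ?_
    apply Finset.single_le_sum (f := fun j => |cen (Z j) (N j)| + rad (Z j) (N j))
    · intro i hi
      have := hρ i (by rw [Finset.mem_range] at hi; omega)
      have := abs_nonneg (cen (Z i) (N i))
      linarith
    · rw [Finset.mem_range]; omega

/-- The whole theorem, given an extremal cycle and the numerical conditions. -/
theorem iff_of_ext {q : ℕ} {c r : ℝ} {Z N : ℕ → ℂ} {m : ℕ → ℝ} (H : Ext (q + 1) c r Z N m)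
    (hr : 0 < r) (hc : |c| ≤ 2)
    (him : ∀ j, j ≤ q + 1 → (N j).im ≠ 0)
    (hρ : ∀ j, j ≤ q → 0 < rad (Z j) (N j))
    (hk : ∀ j, j ≤ q → (cen (Z j) (N j)) ^ 2 < cen (Z (j + 1)) (N (j + 1)) - c)
    (hrρ : ∀ j, j ≤ q + 1 → r ≤ rad (Z j) (N j))
    (h0 : |cen (Z 0) (N 0)| ≤ rad (Z 0) (N 0))
    (D : ℂ) (hD : ‖D‖ = 1) (hZ0 : Z 0 = m 0 * D) (Q B : ℝ) (hQ : 0 ≤ Q)
    (hprop : ∀ δ : ℂ, ‖δ‖ ≤ B → ‖prop Z q δ - (∏ i ∈ Finset.range q, 2 * Z (i + 1)) * δ‖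
      ≤ Q * ‖δ‖ ^ 2)
    (τ y κ : ℝ) (hτ : 0 ≤ τ) (hτm : τ ≤ m 0) (hB : τ * (2 * m 0 + τ) ≤ B)
    (hy : |2 * (N (q + 1) * D).im| ≤ y) (hκ : κ ≤ (N (q + 1) * D).re / (2 * m 0))
    (hmain : (y + τ * (1 / (2 * m 0) + Q * (2 * m 0 + τ) ^ 2)) ^ 2
      ≤ 2 * r * (κ - Q * (2 * m 0 + τ) ^ 2))
    (s0 s1 : ℝ) (h1 : m 0 - τ ≤ s0) (h2 : s0 ≤ s1) (h3 : s1 ≤ m 0 + τ)
    (hstart : ∀ O : ℂ → Prop, O 0 → (∀ z w : ℂ, O z → ‖w - (z ^ 2 + c)‖ ≤ r → O w) →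
      (∀ z : ℂ, O z → O ((starRingEnd ℂ) z)) → O ((s0 : ℂ) * D))
    (hexit : ∀ O : ℂ → Prop, O ((s1 : ℂ) * D) →
      (∀ z w : ℂ, O z → ‖w - (z ^ 2 + c)‖ ≤ r → O w) →
      (∀ z : ℂ, O z → O ((starRingEnd ℂ) z)) → ∃ w, O w ∧ 5/2 ≤ ‖w‖) (r' : ℝ) :
    Bornology.IsBounded (totalOrbit c r') ↔ r' ≤ r := by
  constructor
  · intro hb
    by_contra hlt
    rw [not_le] at hlt
    refine unbounded_of_moves ?_ hb
    intro O O0 O2 O3 B'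
    have O2' : ∀ z w : ℂ, O z → ‖w - (z ^ 2 + c)‖ ≤ r → O w :=
      fun z w hz hw => O2 z w hz (hw.trans hlt.le)
    have a1 := hstart O O0 O2' O3
    have a2 := ray H hr.le hlt O O2 O3 D hD hZ0 Q B hQ hprop τ y κ hτ hτm hB hy hκ hmain s0 s1 h1
      h2 h3 a1
    obtain ⟨w, hw, hw2⟩ := hexit O a2 O2' O3
    exact escape hr.le hc O O2' w hw hw2 B'
  · intro hle
    exact bounded_of_ext H him hρ hk hrρ h0 r' hle

end Pool.Agent.Helper81.RC
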