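import Mathlib

/-!
A quantitative Newton theorem for systems of quadratic equations with integer data, with all
checks done in integers.
-/

set_option autoImplicit false

namespace Pool.Agent.Helper81.RC

open Finset

/-- A quadratic equation in `n` unknowns with integer coefficients and one real parameter `c`. -/
structure QEq (n : ℕ) where
  k : ℤ
  cf : ℤ
  lin : List (Fin n × ℤ)
  quad : List (Fin n × Fin n × ℤ)

/-- value of the left hand side -/
noncomputable def QEq.eval {n : ℕ} (e : QEq n) (c : ℝ) (x : Fin n → ℝ) : ℝ :=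
  e.k + e.cf * c + (e.lin.map fun t => (t.2 : ℝ) * x t.1).sum
    + (e.quad.map fun t => (t.2.2 : ℝ) * (x t.1 * x t.2.1)).sum

/-- derivative at `y` in the direction `d` -/
noncomputable def QEq.dir {n : ℕ} (e : QEq n) (y d : Fin n → ℝ) : ℝ :=
  (e.lin.map fun t => (t.2 : ℝ) * d t.1).sum
    + (e.quad.map fun t => (t.2.2 : ℝ) * (y t.1 * d t.2.1 + y t.2.1 * d t.1)).sum

/-- sum of the absolute values of the quadratic coefficients -/
def QEq.wt {n : ℕ} (e : QEq n) : ℕ := (e.quad.map fun t => t.2.2.natAbs).sum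

theorem QEq.eval_sub {n : ℕ} (e : QEq n) (c : ℝ) (x y z : Fin n → ℝ) (ρ d : ℝ)
    (hx : ∀ j, |x j - z j| ≤ ρ) (hy : ∀ j, |y j - z j| ≤ ρ) (hd : ∀ j, |x j - y j| ≤ d) :
    |e.eval c x - e.eval c y - e.dir z (fun j => x j - y j)| ≤ e.wt * (2 * ρ * d) := by
  have h1 : ∀ l : List (Fin n × ℤ), (l.map fun t => (t.2 : ℝ) * x t.1).sum
      - (l.map fun t => (t.2 : ℝ) * y t.1).sum
      - (l.map fun t => (t.2 : ℝ) * (x t.1 - y t.1)).sum = 0 := by
    intro l
    induction l with
    | nil => simp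
    | cons a l ih =>
      simp only [List.map_cons, List.sum_cons]
      linear_combination ih
  have h2 : ∀ l : List (Fin n × Fin n × ℤ),
      |(l.map fun t => (t.2.2 : ℝ) * (x t.1 * x t.2.1)).sum
      - (l.map fun t => (t.2.2 : ℝ) * (y t.1 * y t.2.1)).sum
      - (l.map fun t => (t.2.2 : ℝ) * (z t.1 * (x t.2.1 - y t.2.1)
          + z t.2.1 * (x t.1 - y t.1))).sum|
      ≤ ((l.map fun t => t.2.2.natAbs).sum : ℕ) * (2 * ρ * d) := by
    intro l
    induction l with
    | nil => simp
    | cons a l ih =>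
      obtain ⟨i, j, v⟩ := a
      simp only [List.map_cons, List.sum_cons]
      have hρ : 0 ≤ ρ := (abs_nonneg _).trans (hx i)
      have hdd : 0 ≤ d := (abs_nonneg _).trans (hd i)
      have e1 : (v : ℝ) * (x i * x j) - (v : ℝ) * (y i * y j)
          - (v : ℝ) * (z i * (x j - y j) + z j * (x i - y i))
          = (v : ℝ) * ((x i - z i) * (x j - y j) + (y j - z j) * (x i - y i)) := by ring
      have e2 : |(x i - z i) * (x j - y j) + (y j - z j) * (x i - y i)| ≤ 2 * ρ * d := by
        refine (abs_add_le _ _).trans ?_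
        rw [abs_mul, abs_mul]
        have := mul_le_mul (hx i) (hd j) (abs_nonneg _) hρ
        have := mul_le_mul (hy j) (hd i) (abs_nonneg _) hρ
        linarith
      have e3 : |(v : ℝ) * ((x i - z i) * (x j - y j) + (y j - z j) * (x i - y i))|
          ≤ (v.natAbs : ℝ) * (2 * ρ * d) := by
        rw [abs_mul]
        have : |(v : ℝ)| = (v.natAbs : ℝ) := by
          rw [Nat.cast_natAbs, Int.cast_abs]
        rw [this]
        exact mul_le_mul_of_nonneg_left e2 (Nat.cast_nonneg _)
      push_cast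
      have e4 : (v : ℝ) * (x i * x j) + (l.map fun t => (t.2.2 : ℝ) * (x t.1 * x t.2.1)).sum
          - ((v : ℝ) * (y i * y j) + (l.map fun t => (t.2.2 : ℝ) * (y t.1 * y t.2.1)).sum)
          - ((v : ℝ) * (z i * (x j - y j) + z j * (x i - y i))
            + (l.map fun t => (t.2.2 : ℝ) * (z t.1 * (x t.2.1 - y t.2.1)
          + z t.2.1 * (x t.1 - y t.1))).sum)
          = (v : ℝ) * ((x i - z i) * (x j - y j) + (y j - z j) * (x i - y i))
            + ((l.map fun t => (t.2.2 : ℝ) * (x t.1 * x t.2.1)).sum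
      - (l.map fun t => (t.2.2 : ℝ) * (y t.1 * y t.2.1)).sum
      - (l.map fun t => (t.2.2 : ℝ) * (z t.1 * (x t.2.1 - y t.2.1)
          + z t.2.1 * (x t.1 - y t.1))).sum) := by
        rw [← e1]; ring
      rw [e4]
      refine (abs_add_le _ _).trans ?_
      push_cast at ih
      rw [add_mul]
      exact add_le_add e3 ih
  have h3 := h1 e.lin
  have h4 := h2 e.quad
  unfold QEq.eval QEq.dir QEq.wt
  have e5 : (e.k : ℝ) + e.cf * c + (e.lin.map fun t => (t.2 : ℝ) * x t.1).sum
    + (e.quad.map fun t => (t.2.2 : ℝ) * (x t.1 * x t.2.1)).sum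
    - (e.k + e.cf * c + (e.lin.map fun t => (t.2 : ℝ) * y t.1).sum
    + (e.quad.map fun t => (t.2.2 : ℝ) * (y t.1 * y t.2.1)).sum)
    - ((e.lin.map fun t => (t.2 : ℝ) * (x t.1 - y t.1)).sum
    + (e.quad.map fun t => (t.2.2 : ℝ) * (z t.1 * (x t.2.1 - y t.2.1)
          + z t.2.1 * (x t.1 - y t.1))).sum)
    = (e.quad.map fun t => (t.2.2 : ℝ) * (x t.1 * x t.2.1)).sum
      - (e.quad.map fun t => (t.2.2 : ℝ) * (y t.1 * y t.2.1)).sum
      - (e.quad.map fun t => (t.2.2 : ℝ) * (z t.1 * (x t.2.1 - y t.2.1)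
          + z t.2.1 * (x t.1 - y t.1))).sum := by
    linear_combination h3
  rw [e5]
  exact h4

/-- integer Jacobian entry, scaled by `S`, at the point `X / S` -/
def QEq.jac {n : ℕ} (e : QEq n) (S : ℤ) (X : Fin n → ℤ) (j : Fin n) : ℤ :=
  (e.lin.map fun t => if t.1 = j then t.2 * S else 0).sum
    + (e.quad.map fun t => (if t.2.1 = j then t.2.2 * X t.1 else 0)
        + (if t.1 = j then t.2.2 * X t.2.1 else 0)).sum

theorem QEq.dir_eq {n : ℕ} (e : QEq n) (S : ℤ) (hS : S ≠ 0) (X : Fin n → ℤ) (d : Fin n → ℝ) :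
    (S : ℝ) * e.dir (fun j => (X j : ℝ) / S) d = ∑ j, (e.jac S X j : ℝ) * d j := by
  have hS' : (S : ℝ) ≠ 0 := by exact_mod_cast hS
  have h1 : ∀ l : List (Fin n × ℤ), (S : ℝ) * (l.map fun t => (t.2 : ℝ) * d t.1).sum
      = ∑ j, (((l.map fun t => if t.1 = j then t.2 * S else 0).sum : ℤ) : ℝ) * d j := by
    intro l
    induction l with
    | nil => simp
    | cons a l ih =>
      simp only [List.map_cons, List.sum_cons]
      rw [mul_add, ih]
      push_cast
      simp only [add_mul, sum_add_distrib]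
      congr 1
      simp only [ite_mul, zero_mul, Finset.sum_ite_eq, Finset.mem_univ, if_true]
      ring
  have h2 : ∀ l : List (Fin n × Fin n × ℤ), (S : ℝ) * (l.map fun t => (t.2.2 : ℝ) *
      ((X t.1 : ℝ) / S * d t.2.1 + (X t.2.1 : ℝ) / S * d t.1)).sum
      = ∑ j, (((l.map fun t => (if t.2.1 = j then t.2.2 * X t.1 else 0)
        + (if t.1 = j then t.2.2 * X t.2.1 else 0)).sum : ℤ) : ℝ) * d j := by
    intro l
    induction l with
    | nil => simp
    | cons a l ih =>
      simp only [List.map_cons, List.sum_cons]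
      rw [mul_add, ih]
      push_cast
      simp only [add_mul, sum_add_distrib]
      congr 1
      simp only [ite_mul, zero_mul, Finset.sum_ite_eq, Finset.mem_univ, if_true]
      field_simp
  unfold QEq.dir QEq.jac
  rw [mul_add, h1, h2, ← sum_add_distrib]
  apply sum_congr rfl
  intro j _
  push_cast
  ring

end Pool.Agent.Helper81.RC
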