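import Pool.Agent.Helper81.RC.QN

set_option autoImplicit false

namespace Pool.Agent.Helper81.RC

open Finset

/-- integer residual, scaled by `S²` -/
def QEq.res {n : ℕ} (e : QEq n) (S : ℤ) (X : Fin n → ℤ) (C : ℤ) : ℤ :=
  e.k * S^2 + e.cf * C * S + (e.lin.map fun t => t.2 * X t.1 * S).sum
    + (e.quad.map fun t => t.2.2 * X t.1 * X t.2.1).sum

theorem QEq.eval_eq {n : ℕ} (e : QEq n) (S : ℤ) (hS : S ≠ 0) (X : Fin n → ℤ) (C : ℤ) (c : ℝ) :
    (S : ℝ)^2 * e.eval c (fun j => (X j : ℝ) / S)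
      = e.res S X C + (S:ℝ)^2 * (e.cf * (c - C / S)) := by
  have hS' : (S : ℝ) ≠ 0 := by exact_mod_cast hS
  have h1 : ∀ l : List (Fin n × ℤ), (S : ℝ)^2 * (l.map fun t => (t.2 : ℝ) * ((X t.1 : ℝ) / S)).sum
      = (((l.map fun t => t.2 * X t.1 * S).sum : ℤ) : ℝ) := by
    intro l
    induction l with
    | nil => simp
    | cons a l ih =>
      simp only [List.map_cons, List.sum_cons]
      rw [mul_add, ih]
      push_cast
      congr 1
      field_simp
  have h2 : ∀ l : List (Fin n × Fin n × ℤ), (S : ℝ)^2 * (l.map fun t => (t.2.2 : ℝ) *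
      ((X t.1 : ℝ) / S * ((X t.2.1 : ℝ) / S))).sum
      = (((l.map fun t => t.2.2 * X t.1 * X t.2.1).sum : ℤ) : ℝ) := by
    intro l
    induction l with
    | nil => simp
    | cons a l ih =>
      simp only [List.map_cons, List.sum_cons]
      rw [mul_add, ih]
      push_cast
      congr 1
      field_simp
  unfold QEq.eval QEq.res
  rw [mul_add, mul_add, h1, h2]
  push_cast
  field_simp
  ring

theorem newton {n : ℕ} (E : Fin n → QEq n) (S T R : ℤ) (hS : 0 < S) (hT : 0 < T) (hR : 0 < R)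
    (X : Fin n → ℤ) (Y : Fin n → Fin n → ℤ) (C : ℤ) (c : ℝ) (hc : |c - C / S| ≤ 1 / S)
    (a b e : ℕ)
    (hA : ∀ i, ∑ j, ((if i = j then S * T else 0) - ∑ k, Y i k * (E k).jac S X j).natAbs ≤ a)
    (hB : ∀ i, ∑ k, (Y i k).natAbs * (E k).wt ≤ b)
    (hC : ∀ i, (∑ k, Y i k * (E k).res S X C).natAbs
      + S.natAbs * ∑ k, (Y i k).natAbs * (E k).cf.natAbs ≤ e)
    (h1 : (a : ℤ) + 2 * R * b < S * T) (h2 : (e : ℤ) ≤ (S * T - a - 2 * R * b) * R) :
    ∃ x : Fin n → ℝ, (∀ j, |x j - (X j : ℝ) / S| ≤ (R : ℝ) / S) ∧ (∀ k, (E k).eval c x = 0) ∧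
      ∀ y : Fin n → ℝ, (∀ j, |y j - (X j : ℝ) / S| ≤ (R : ℝ) / S) →
        (∀ k, (E k).eval c y = 0) → y = x := by
  have hS' : (0 : ℝ) < S := by exact_mod_cast hS
  have hT' : (0 : ℝ) < T := by exact_mod_cast hT
  have hR' : (0 : ℝ) < R := by exact_mod_cast hR
  have natAbs_cast : ∀ v : ℤ, ((v.natAbs : ℕ) : ℝ) = |(v : ℝ)| := by
    intro v; rw [Nat.cast_natAbs, Int.cast_abs]
  set z : Fin n → ℝ := fun j => (X j : ℝ) / S with hz
  set ρ : ℝ := (R : ℝ) / S with hρ
  have hρpos : 0 < ρ := by positivity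
  set θ : ℝ := ((a : ℝ) + 2 * R * b) / (S * T) with hθ
  have hθ0 : 0 ≤ θ := by positivity
  have hST : (0:ℝ) < S * T := by positivity
  have h1' : (a : ℝ) + 2 * R * b < S * T := by exact_mod_cast h1
  have hθ1 : θ < 1 := by rw [hθ, div_lt_one hST]; exact h1'
  -- real form of hA
  have hA' : ∀ i, ∑ j, |((if i = j then (S:ℝ) * T else 0) - ∑ k, (Y i k : ℝ) * ((E k).jac S X j : ℝ))|
      ≤ a := by
    intro i
    have h := hA i
    have : ((∑ j, ((if i = j then S * T else 0) - ∑ k, Y i k * (E k).jac S X j).natAbs : ℕ) : ℝ)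
        ≤ a := by exact_mod_cast h
    rw [Nat.cast_sum] at this
    refine le_trans (le_of_eq ?_) this
    apply sum_congr rfl
    intro j _
    rw [natAbs_cast]
    congr 1
    push_cast
    split_ifs <;> simp
  have hB' : ∀ i, ∑ k, |(Y i k : ℝ)| * ((E k).wt : ℝ) ≤ b := by
    intro i
    have h := hB i
    have : ((∑ k, (Y i k).natAbs * (E k).wt : ℕ) : ℝ) ≤ b := by exact_mod_cast h
    rw [Nat.cast_sum] at this
    refine le_trans (le_of_eq ?_) this
    apply sum_congr rfl
    intro j _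
    rw [Nat.cast_mul, natAbs_cast]
  have hC' : ∀ i, |∑ k, (Y i k : ℝ) * ((E k).res S X C : ℝ)|
      + S * ∑ k, |(Y i k : ℝ)| * |((E k).cf : ℝ)| ≤ e := by
    intro i
    have h := hC i
    have : (((∑ k, Y i k * (E k).res S X C).natAbs
      + S.natAbs * ∑ k, (Y i k).natAbs * (E k).cf.natAbs : ℕ) : ℝ) ≤ e := by exact_mod_cast h
    refine le_trans (le_of_eq ?_) this
    rw [Nat.cast_add, Nat.cast_mul, natAbs_cast, natAbs_cast, Nat.cast_sum, abs_of_pos hS']
    push_cast
    congr 2
    apply sum_congr rfl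
    intro j _
    rw [natAbs_cast, natAbs_cast]
  -- the map
  set F : (Fin n → ℝ) → Fin n → ℝ := fun x k => (E k).eval c x with hF
  set Tm : (Fin n → ℝ) → Fin n → ℝ := fun x i => x i - (∑ k, (Y i k : ℝ) * F x k) / T with hTm
  have key : ∀ x y : Fin n → ℝ, (∀ j, |x j - z j| ≤ ρ) → (∀ j, |y j - z j| ≤ ρ) → ∀ d : ℝ,
      (∀ j, |x j - y j| ≤ d) → ∀ i, |Tm x i - Tm y i| ≤ θ * d := by
    intro x y hx hy d hd i
    have hd0 : 0 ≤ d := (abs_nonneg _).trans (hd i)
    set rem : Fin n → ℝ := fun k => F x k - F y k - (E k).dir z (fun j => x j - y j) with hrem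
    have hremb : ∀ k, |rem k| ≤ (E k).wt * (2 * ρ * d) := fun k =>
      (E k).eval_sub c x y z ρ d hx hy hd
    have hdir : ∀ k, (E k).dir z (fun j => x j - y j)
        = (∑ j, ((E k).jac S X j : ℝ) * (x j - y j)) / S := by
      intro k
      rw [eq_div_iff hS'.ne', mul_comm]
      exact (E k).dir_eq S hS.ne' X _
    have e1 : Tm x i - Tm y i = (∑ j, ((if i = j then (S:ℝ) * T else 0)
        - ∑ k, (Y i k : ℝ) * ((E k).jac S X j : ℝ)) * (x j - y j)) / (S * T)
        - (∑ k, (Y i k : ℝ) * rem k) / T := by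
      have e2 : ∑ k, (Y i k : ℝ) * F x k - ∑ k, (Y i k : ℝ) * F y k
          = (∑ k, (Y i k : ℝ) * ∑ j, ((E k).jac S X j : ℝ) * (x j - y j)) / S
            + ∑ k, (Y i k : ℝ) * rem k := by
        rw [← sum_sub_distrib, sum_div, ← sum_add_distrib]
        apply sum_congr rfl
        intro k _
        have : F x k - F y k = (∑ j, ((E k).jac S X j : ℝ) * (x j - y j)) / S + rem k := by
          rw [hrem]; simp only; rw [hdir k]; ring
        rw [← mul_sub, this]; ring
      have e3 : ∑ j, ((if i = j then (S:ℝ) * T else 0)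
          - ∑ k, (Y i k : ℝ) * ((E k).jac S X j : ℝ)) * (x j - y j)
          = S * T * (x i - y i) - ∑ k, (Y i k : ℝ) * ∑ j, ((E k).jac S X j : ℝ) * (x j - y j) := by
        simp only [sub_mul, sum_sub_distrib, ite_mul, zero_mul, Finset.sum_ite_eq, mem_univ, if_true]
        congr 1
        simp only [Finset.sum_mul, Finset.mul_sum]
        rw [sum_comm]
        apply sum_congr rfl; intro k _
        apply sum_congr rfl; intro j _
        ring
      rw [e3]
      have e4 : Tm x i - Tm y i = (x i - y i)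
          - (∑ k, (Y i k : ℝ) * F x k - ∑ k, (Y i k : ℝ) * F y k) / T := by
        rw [hTm]; simp only; ring
      rw [e4, e2]
      field_simp
      ring
    rw [e1]
    have b1 : |(∑ j, ((if i = j then (S:ℝ) * T else 0)
        - ∑ k, (Y i k : ℝ) * ((E k).jac S X j : ℝ)) * (x j - y j))| ≤ a * d := by
      refine (abs_sum_le_sum_abs _ _).trans ?_
      refine le_trans ?_ (mul_le_mul_of_nonneg_right (hA' i) hd0)
      rw [Finset.sum_mul]
      apply sum_le_sum
      intro j _
      rw [abs_mul]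
      exact mul_le_mul_of_nonneg_left (hd j) (abs_nonneg _)
    have b2 : |∑ k, (Y i k : ℝ) * rem k| ≤ b * (2 * ρ * d) := by
      refine (abs_sum_le_sum_abs _ _).trans ?_
      refine le_trans ?_ (mul_le_mul_of_nonneg_right (hB' i) (by positivity))
      rw [Finset.sum_mul]
      apply sum_le_sum
      intro k _
      rw [abs_mul, mul_assoc]
      exact mul_le_mul_of_nonneg_left (hremb k) (abs_nonneg _)
    refine (abs_sub _ _).trans ?_
    rw [abs_div, abs_div, abs_of_pos hST, abs_of_pos hT']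
    have b3 : |(∑ j, ((if i = j then (S:ℝ) * T else 0)
        - ∑ k, (Y i k : ℝ) * ((E k).jac S X j : ℝ)) * (x j - y j))| / (S * T) ≤ a * d / (S * T) :=
      div_le_div_of_nonneg_right b1 hST.le
    have b4 : |∑ k, (Y i k : ℝ) * rem k| / T ≤ b * (2 * ρ * d) / T :=
      div_le_div_of_nonneg_right b2 hT'.le
    refine (add_le_add b3 b4).trans (le_of_eq ?_)
    rw [hθ, hρ]
    field_simp
  have hz0 : ∀ i, |Tm z i - z i| ≤ (1 - θ) * ρ := by
    intro i
    have e1 : Tm z i - z i = - ((∑ k, (Y i k : ℝ) * F z k) / T) := by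
      rw [hTm]; simp only; ring
    rw [e1, abs_neg, abs_div, abs_of_pos hT']
    have e2 : (S:ℝ)^2 * ∑ k, (Y i k : ℝ) * F z k
        = ∑ k, (Y i k : ℝ) * ((E k).res S X C : ℝ)
          + (S:ℝ)^2 * ((c - C / S) * ∑ k, (Y i k : ℝ) * ((E k).cf : ℝ)) := by
      rw [Finset.mul_sum]
      rw [Finset.mul_sum, Finset.mul_sum, ← sum_add_distrib]
      apply sum_congr rfl
      intro k _
      have := (E k).eval_eq S hS.ne' X C c
      have e3 : (S:ℝ)^2 * ((Y i k : ℝ) * F z k) = (Y i k : ℝ) * ((S:ℝ)^2 * F z k) := by ring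
      rw [e3]
      have e4 : (S:ℝ)^2 * F z k = (S : ℝ)^2 * (E k).eval c (fun j => (X j : ℝ) / S) := rfl
      rw [e4, this]; ring
    have e5 : |(S:ℝ)^2 * ∑ k, (Y i k : ℝ) * F z k| ≤ e := by
      rw [e2]
      refine (abs_add_le _ _).trans ?_
      refine le_trans ?_ (hC' i)
      apply add_le_add le_rfl
      rw [abs_mul, abs_mul, abs_of_pos (by positivity : (0:ℝ) < (S:ℝ)^2)]
      have e6 : |∑ k, (Y i k : ℝ) * ((E k).cf : ℝ)| ≤ ∑ k, |(Y i k : ℝ)| * |((E k).cf : ℝ)| := by
        refine (abs_sum_le_sum_abs _ _).trans (le_of_eq ?_)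
        apply sum_congr rfl; intro k _; rw [abs_mul]
      have e7 : 0 ≤ ∑ k, |(Y i k : ℝ)| * |((E k).cf : ℝ)| :=
        sum_nonneg (fun k _ => by positivity)
      have e8 : |c - C / S| * |∑ k, (Y i k : ℝ) * ((E k).cf : ℝ)|
          ≤ (1 / S) * ∑ k, |(Y i k : ℝ)| * |((E k).cf : ℝ)| :=
        mul_le_mul hc e6 (abs_nonneg _) (by positivity)
      have e9 := mul_le_mul_of_nonneg_left e8 (by positivity : (0:ℝ) ≤ (S:ℝ)^2)
      refine e9.trans (le_of_eq ?_)
      field_simp
    rw [abs_mul, abs_of_pos (by positivity : (0:ℝ) < (S:ℝ)^2)] at e5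
    have h2' : (e : ℝ) ≤ (S * T - a - 2 * R * b) * R := by exact_mod_cast h2
    have e10 : (1 - θ) * ρ = ((S * T - a - 2 * R * b) * R) / (S^2 * T) := by
      rw [hθ, hρ]; field_simp; ring
    rw [e10, div_le_div_iff₀ hT' (by positivity)]
    have := e5.trans h2'
    nlinarith
  -- completeness and contraction
  have hbox : ∀ x : Fin n → ℝ, x ∈ Metric.closedBall z ρ ↔ ∀ j, |x j - z j| ≤ ρ := by
    intro x
    rw [Metric.mem_closedBall, dist_pi_le_iff hρpos.le]
    simp only [Real.dist_eq]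
  have hmaps : Set.MapsTo Tm (Metric.closedBall z ρ) (Metric.closedBall z ρ) := by
    intro x hx
    rw [hbox] at hx ⊢
    intro i
    have h1 := key x z hx (fun j => by rw [sub_self, abs_zero]; exact hρpos.le) ρ hx i
    have h2 := hz0 i
    have h3 : Tm x i - z i = (Tm x i - Tm z i) + (Tm z i - z i) := by ring
    rw [h3]
    refine (abs_add_le _ _).trans ?_
    nlinarith
  have hlip : ∀ x ∈ Metric.closedBall z ρ, ∀ y ∈ Metric.closedBall z ρ,
      dist (Tm x) (Tm y) ≤ θ * dist x y := by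
    intro x hx y hy
    rw [hbox] at hx hy
    rw [dist_pi_le_iff (by positivity)]
    intro i
    rw [Real.dist_eq]
    exact key x y hx hy (dist x y) (fun j => by rw [← Real.dist_eq]; exact dist_le_pi_dist x y j) i
  have hcomp : IsComplete (Metric.closedBall z ρ) := Metric.isClosed_closedBall.isComplete
  have hcontr : ContractingWith ⟨θ, hθ0⟩ (hmaps.restrict Tm _ _) := by
    refine ⟨by exact_mod_cast hθ1, ?_⟩
    apply LipschitzWith.of_dist_le_mul
    rintro ⟨x, hx⟩ ⟨y, hy⟩
    exact hlip x hx y hy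
  have hzmem : z ∈ Metric.closedBall z ρ := Metric.mem_closedBall_self hρpos.le
  obtain ⟨x, hx, hfix, -⟩ := ContractingWith.exists_fixedPoint' hcomp hmaps hcontr hzmem
    (edist_ne_top _ _)
  -- injectivity of Y
  have hYinj : ∀ v : Fin n → ℝ, (∀ i, ∑ k, (Y i k : ℝ) * v k = 0) → v = 0 := by
    set MY : Matrix (Fin n) (Fin n) ℝ := fun i k => (Y i k : ℝ) with hMY
    set MJ : Matrix (Fin n) (Fin n) ℝ := fun k j => ((E k).jac S X j : ℝ) with hMJ
    have hdet : (MY * MJ).det ≠ 0 := by
      intro h0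
      obtain ⟨w, hw0, hw⟩ := Matrix.exists_mulVec_eq_zero_iff.mpr h0
      have hwi : ∀ i, ∑ j, (∑ k, (Y i k : ℝ) * ((E k).jac S X j : ℝ)) * w j = 0 := by
        intro i
        have := congrFun hw i
        simp only [Matrix.mulVec, dotProduct, Matrix.mul_apply, Pi.zero_apply] at this
        exact this
      have hb : ∀ i, |w i| * (S * T) ≤ a * ‖w‖ := by
        intro i
        have e1 : S * T * w i = ∑ j, ((if i = j then (S:ℝ) * T else 0)
          - ∑ k, (Y i k : ℝ) * ((E k).jac S X j : ℝ)) * w j := by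
          simp only [sub_mul, sum_sub_distrib, ite_mul, zero_mul, Finset.sum_ite_eq, mem_univ,
            if_true, hwi i, sub_zero]
        have e2 : |S * T * w i| ≤ a * ‖w‖ := by
          rw [e1]
          refine (abs_sum_le_sum_abs _ _).trans ?_
          refine le_trans ?_ (mul_le_mul_of_nonneg_right (hA' i) (norm_nonneg w))
          rw [Finset.sum_mul]
          apply sum_le_sum
          intro j _
          rw [abs_mul]
          apply mul_le_mul_of_nonneg_left _ (abs_nonneg _)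
          have := norm_le_pi_norm w j
          rwa [Real.norm_eq_abs] at this
        rw [abs_mul, abs_of_pos hST] at e2
        linarith
      have hwpos : 0 < ‖w‖ := norm_pos_iff.mpr hw0
      have hlt : ‖w‖ * (S * T) ≤ a * ‖w‖ := by
        rw [← le_div_iff₀ hST]
        apply (pi_norm_le_iff_of_nonneg (by positivity)).mpr
        intro i
        rw [Real.norm_eq_abs, le_div_iff₀ hST]
        exact hb i
      have : (a:ℝ) < S * T := by
        have : (0:ℝ) ≤ 2 * R * b := by positivity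
        linarith
      nlinarith
    have hdetY : MY.det ≠ 0 := by
      rw [Matrix.det_mul] at hdet
      exact left_ne_zero_of_mul hdet
    intro v hv
    by_contra hne
    apply hdetY
    apply Matrix.exists_mulVec_eq_zero_iff.mp
    refine ⟨v, hne, ?_⟩
    funext i
    simpa [Matrix.mulVec, dotProduct, hMY] using hv i
  refine ⟨x, (hbox x).mp hx, ?_, ?_⟩
  · have hv : F x = 0 := by
      apply hYinj
      intro i
      have := congrFun hfix i
      rw [hTm] at this
      simp only at this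
      have h3 : (∑ k, (Y i k : ℝ) * F x k) / T = 0 := by linarith
      rcases div_eq_zero_iff.mp h3 with h | h
      · exact h
      · exact absurd h hT'.ne'
    intro k
    exact congrFun hv k
  · intro y hy hFy
    have hymem := (hbox y).mpr hy
    have hyfix : Tm y = y := by
      funext i
      rw [hTm]
      simp only [hF, hFy, mul_zero, sum_const_zero, zero_div, sub_zero]
    have h3 := hlip y hymem x hx
    rw [hyfix, hfix] at h3
    have h4 : 0 ≤ dist y x := dist_nonneg
    have h5 : dist y x = 0 := by nlinarith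
    exact dist_eq_zero.mp h5

end Pool.Agent.Helper81.RC
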